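import Mathlib

/-!
# Auxiliary facts for the factorial series barrier
-/

namespace Pool.Agent.Helper32.FS

open Filter Topology
open scoped Nat

/-- Number of admissible digits at the place `k`. -/
noncomputable def B (ε : ℝ) (k : ℕ) : ℕ := ⌊(k : ℝ) ^ (ε / 4)⌋₊

theorem B_pos (ε : ℝ) (hε : 0 < ε) (k : ℕ) (hk : 1 ≤ k) : 1 ≤ B ε k := by
  unfold B
  rw [Nat.one_le_floor_iff]
  exact Real.one_le_rpow (by exact_mod_cast hk) (by positivity)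

theorem B_le (ε : ℝ) (k : ℕ) : (B ε k : ℝ) ≤ (k : ℝ) ^ (ε / 4) :=
  Nat.floor_le (by positivity)

theorem B_ge (ε : ℝ) (hε : 0 < ε) (k : ℕ) (hk : 1 ≤ k) : (k : ℝ) ^ (ε / 4) ≤ 2 * B ε k := by
  have h1 : (k : ℝ) ^ (ε / 4) < B ε k + 1 := Nat.lt_floor_add_one _
  have h2 : (1 : ℝ) ≤ B ε k := by exact_mod_cast B_pos ε hε k hk
  linarith

theorem pow_div_fac (C : ℝ) (c : ℝ) (hc : 0 < c) : ∀ᶠ k : ℕ in atTop, C * (k : ℝ) ^ 4 ≤ c * (k ! : ℝ) := by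
  have h1 : Tendsto (fun k : ℕ => (k : ℝ) ^ 4 / (2 : ℝ) ^ k) atTop (𝓝 0) :=
    tendsto_pow_const_div_const_pow_of_one_lt 4 (by norm_num)
  have h2 : Tendsto (fun k : ℕ => (2 : ℝ) ^ k / (k ! : ℝ)) atTop (𝓝 0) :=
    FloorSemiring.tendsto_pow_div_factorial_atTop 2
  have h3 := (h1.mul h2).const_mul C
  simp only [mul_zero] at h3
  filter_upwards [h3.eventually_le_const hc] with k hk
  have hf : (0 : ℝ) < (k ! : ℝ) := by exact_mod_cast Nat.factorial_pos k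
  have h4 : C * ((k : ℝ) ^ 4 / (2 : ℝ) ^ k * ((2 : ℝ) ^ k / (k ! : ℝ))) = C * (k : ℝ) ^ 4 / (k ! : ℝ) := by
    field_simp
  rw [h4, div_le_iff₀ hf] at hk
  exact hk

theorem rpow_large (ε C : ℝ) (hε : 0 < ε) : ∀ᶠ k : ℕ in atTop, C ≤ (k : ℝ) ^ ε :=
  ((tendsto_rpow_atTop hε).comp tendsto_natCast_atTop_atTop).eventually_ge_atTop C

theorem log_large (C : ℝ) : ∀ᶠ k : ℕ in atTop, C ≤ Real.log k :=
  (Real.tendsto_log_atTop.comp tendsto_natCast_atTop_atTop).eventually_ge_atTop C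

/-- `(1 + u)^n ≤ 1 + n u + (n u)^2` for `n u ≤ 1`. -/
theorem bern2 (n : ℕ) (u : ℝ) (hu : 0 ≤ u) (h : n * u ≤ 1) :
    (1 + u) ^ n ≤ 1 + n * u + (n * u) ^ 2 := by
  have h0 : (0 : ℝ) ≤ n * u := by positivity
  have h1 : (1 + u) ^ n ≤ Real.exp (n * u) := by
    rw [Real.exp_nat_mul]
    exact pow_le_pow_left₀ (by linarith) (by linarith [Real.add_one_le_exp u]) n
  have h2 := Real.abs_exp_sub_one_sub_id_le (x := n * u) (by rw [abs_of_nonneg h0]; exact h)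
  have h3 := (abs_le.mp h2).2
  linarith

theorem bern1 (n : ℕ) (u : ℝ) (hu : 0 ≤ u) : 1 + n * u ≤ (1 + u) ^ n :=
  one_add_mul_le_pow (by linarith) n

end Pool.Agent.Helper32.FS
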