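import Pool.Agent.Helper46.TC.Tree

/-!
# Decay of the digit measure for series with rapidly decreasing terms
-/

namespace Pool.Agent.Helper32.FS

open MeasureTheory Set Pool.Agent.Helper46.TC

theorem P_eval (b : ℕ → ℕ) (n : ℕ) (s : Set ℕ) : P b {z | z n ∈ s} = unif (b n) s := by
  have h := (measurePreserving_eval_infinitePi (fun n : ℕ => unif (b n)) n).measure_preimage
    (s := s) (MeasurableSet.of_discrete.nullMeasurableSet)
  exact h

theorem unif_ge (b : ℕ) (hb : 1 ≤ b) : unif b {a | b ≤ a} = 0 := by
  unfold unif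
  rw [PMF.toMeasure_apply_eq_zero_iff _ MeasurableSet.of_discrete, Set.disjoint_left]
  intro a ha h
  have ha' : a ∈ Finset.range (max b 1) := (PMF.mem_support_uniformOfFinset_iff
    (⟨0, Finset.mem_range.2 (lt_of_lt_of_le one_pos (le_max_right _ _))⟩ :
      (Finset.range (max b 1)).Nonempty) a).1 ha
  rw [Finset.mem_range, max_eq_left hb] at ha'
  have h' : b ≤ a := h
  omega

/-- Decomposition of a cylinder into its children. -/
theorem cyl_children (b : ℕ → ℕ) (hb : ∀ n, 1 ≤ b n) (x : Om) (n : ℕ) (E : Set Om) :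
    P b (cyl x n ∩ E) ≤ ∑ a ∈ Finset.range (b n), P b (cyl (Function.update x n a) (n + 1) ∩ E) := by
  have hsub : cyl x n ∩ E ⊆ (⋃ a ∈ Finset.range (b n), cyl (Function.update x n a) (n + 1) ∩ E) ∪
      {z | z n ∈ {a | b n ≤ a}} := by
    intro z hz
    by_cases h : z n < b n
    · left
      simp only [Set.mem_iUnion]
      refine ⟨z n, Finset.mem_range.mpr h, ?_, hz.2⟩
      intro i hi
      by_cases hin : i = n
      · subst hin; simp
      · rw [Function.update_of_ne hin]
        exact hz.1 i (by omega)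
    · right
      simpa using h
  calc P b (cyl x n ∩ E) ≤ P b ((⋃ a ∈ Finset.range (b n), cyl (Function.update x n a) (n + 1) ∩ E) ∪
        {z | z n ∈ {a | b n ≤ a}}) := measure_mono hsub
    _ ≤ P b (⋃ a ∈ Finset.range (b n), cyl (Function.update x n a) (n + 1) ∩ E) +
        P b {z | z n ∈ {a | b n ≤ a}} := measure_union_le _ _
    _ = P b (⋃ a ∈ Finset.range (b n), cyl (Function.update x n a) (n + 1) ∩ E) := by
        rw [P_eval, unif_ge (b n) (hb n), add_zero]
    _ ≤ _ := measure_biUnion_finset_le _ _

theorem card_near (c R : ℝ) (hR : 0 ≤ R) (H : Finset ℕ) (hH : ∀ a ∈ H, |(a : ℝ) - c| ≤ R) :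
    (H.card : ℝ) ≤ 2 * R + 1 := by
  classical
  have h1 : H.image (fun a : ℕ => (a : ℤ)) ⊆ Finset.Icc ⌈c - R⌉ ⌊c + R⌋ := by
    intro z hz
    rw [Finset.mem_image] at hz
    obtain ⟨a, ha, rfl⟩ := hz
    have := abs_le.mp (hH a ha)
    rw [Finset.mem_Icc, Int.ceil_le, Int.le_floor]
    push_cast
    constructor <;> linarith
  have h2 := Finset.card_le_card h1
  rw [Finset.card_image_of_injective _ (fun a b h => by exact_mod_cast h), Int.card_Icc] at h2
  have h3 : ((⌊c + R⌋ + 1 - ⌈c - R⌉).toNat : ℝ) ≤ 2 * R + 1 := by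
    rcases le_total 0 (⌊c + R⌋ + 1 - ⌈c - R⌉) with h | h
    · have h4 : (((⌊c + R⌋ + 1 - ⌈c - R⌉).toNat : ℤ) : ℝ) = ((⌊c + R⌋ + 1 - ⌈c - R⌉ : ℤ) : ℝ) := by
        rw [Int.toNat_of_nonneg h]
      have h5 : ((⌊c + R⌋ + 1 - ⌈c - R⌉).toNat : ℝ) = (((⌊c + R⌋ + 1 - ⌈c - R⌉).toNat : ℤ) : ℝ) := by
        norm_cast
      rw [h5, h4]
      push_cast
      have := Int.floor_le (c + R)
      have := Int.le_ceil (c - R)
      linarith
    · rw [Int.toNat_of_nonpos h]
      push_cast
      linarith
  calc (H.card : ℝ) ≤ ((⌊c + R⌋ + 1 - ⌈c - R⌉).toNat : ℝ) := by exact_mod_cast h2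
    _ ≤ _ := h3

theorem decay_main (b : ℕ → ℕ) (hb : ∀ n, 1 ≤ b n) (pt : Om → ℝ) (u : ℕ → Om → ℝ)
    (hu : ∀ n x z, z ∈ cyl x n → u n z = u n x) (F δ R : ℕ → ℝ) (hF : ∀ n, 0 < F n) (hδ0 : ∀ n, 0 ≤ δ n)
    (hpt1 : ∀ n z, u n z + ((z n % b n : ℕ) : ℝ) / F n ≤ pt z)
    (hpt2 : ∀ n z, pt z ≤ u n z + ((z n % b n : ℕ) : ℝ) / F n + δ n)
    (hδ : ∀ n, δ n * F n ≤ 1 / 2) (len : ℕ → ℝ) (hlen : ∀ n, len n = (b n + 1) / F n)
    (hlen2 : ∀ n, len (n + 1) * F n ≤ 1 / 2) (s : ℝ) (hs0 : 0 < s) (hs1 : s ≤ 1)
    (hR1 : ∀ n, 1 ≤ R n) (hR : ∀ n, len n ≤ R n * len (n + 1)) (hRs : ∀ n, 3 * (R n) ^ s ≤ b n)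
    (htend : Filter.Tendsto len Filter.atTop (nhds 0)) (y r : ℝ) (n : ℕ) (x : Om) (hr : 0 < r) :
    P b (cyl x n ∩ {z | |pt z - y| < r}) ≤ ENNReal.ofReal (8 * (r / len n) ^ s) * P b (cyl x n) := by
  classical
  have hb0 : ∀ n, (0 : ℝ) < b n := fun n => by exact_mod_cast hb n
  have hlen0 : ∀ n, 0 < len n := fun n => by rw [hlen]; have := hb0 n; have := hF n; positivity
  obtain ⟨m, hm⟩ : ∃ m, n ≤ m ∧ len m ≤ r := by
    have h1 := (htend.eventually_le_const hr).and (Filter.eventually_ge_atTop n)
    obtain ⟨m, hm⟩ := h1.exists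
    exact ⟨m, hm.2, hm.1⟩
  obtain ⟨hnm, hmr⟩ := hm
  have triv : ∀ n x, len n ≤ r → P b (cyl x n ∩ {z | |pt z - y| < r}) ≤
      ENNReal.ofReal (8 * (r / len n) ^ s) * P b (cyl x n) := by
    intro n x h
    have h1 : 1 ≤ 8 * (r / len n) ^ s := by
      have : 1 ≤ (r / len n) ^ s := Real.one_le_rpow (by rw [one_le_div (hlen0 n)]; exact h) hs0.le
      linarith
    calc P b (cyl x n ∩ {z | |pt z - y| < r}) ≤ P b (cyl x n) := measure_mono Set.inter_subset_left
      _ = 1 * P b (cyl x n) := (one_mul _).symm
      _ ≤ _ := by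
        gcongr
        rw [ENNReal.one_le_ofReal]
        exact h1
  obtain ⟨j, rfl⟩ : ∃ j, m = n + j := ⟨m - n, by omega⟩
  clear hnm
  induction j generalizing n x with
  | zero => exact triv n x hmr
  | succ j ih =>
    by_cases hnr : len n ≤ r
    · exact triv n x hnr
    push Not at hnr
    -- the children that are hit
    set E : Set Om := {z | |pt z - y| < r} with hE
    set H : Finset ℕ := (Finset.range (b n)).filter
      (fun a => (cyl (Function.update x n a) (n + 1) ∩ E).Nonempty) with hH
    have hHcard : (H.card : ℝ) ≤ 2 * ((r + δ n) * F n) + 1 := by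
      apply card_near ((y - u n x) * F n) _ (by have := hF n; have := hδ0 n; positivity)
      intro a ha
      rw [hH, Finset.mem_filter, Finset.mem_range] at ha
      obtain ⟨hab, z, hz1, hz2⟩ := ha
      have hza : z n = a := by
        have := hz1 n (by omega)
        simpa using this
      have hzx : z ∈ cyl x n := by
        intro i hi
        have := hz1 i (by omega)
        rwa [Function.update_of_ne (by omega)] at this
      have h1 := hpt1 n z
      have h2 := hpt2 n z
      rw [hu n x z hzx, hza, Nat.mod_eq_of_lt hab] at h1 h2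
      have h3 : |pt z - y| < r := hz2
      have h4 := abs_lt.mp h3
      have hFn := hF n
      have e1 : (a : ℝ) - (y - u n x) * F n = (u n x + a / F n - y) * F n := by field_simp; ring
      rw [e1, abs_mul, abs_of_pos hFn]
      apply mul_le_mul_of_nonneg_right _ hFn.le
      have := hδ0 n
      rw [abs_le]
      constructor <;> linarith
    have hsum : P b (cyl x n ∩ E) ≤ ∑ a ∈ H, P b (cyl (Function.update x n a) (n + 1) ∩ E) := by
      refine (cyl_children b hb x n E).trans (le_of_eq ?_)
      rw [hH, Finset.sum_filter]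
      refine Finset.sum_congr rfl fun a _ => ?_
      split_ifs with h
      · rfl
      · rw [Set.not_nonempty_iff_eq_empty] at h
        rw [h, measure_empty]
    have hchild : ∀ a, P b (cyl (Function.update x n a) (n + 1)) ≤ ENNReal.ofReal (1 / b n) * P b (cyl x n) := by
      intro a
      rw [P_cyl_succ, cyl_eq_of_mem (update_mem x n a)]
      gcongr
      refine (unif_singleton_le (b n) (hb n) _).trans (le_of_eq ?_)
      rw [one_div, ENNReal.ofReal_inv_of_pos (hb0 n), ENNReal.ofReal_natCast]
    have hcomb : ∀ K : ℝ, 0 ≤ K → (∀ a ∈ H, P b (cyl (Function.update x n a) (n + 1) ∩ E) ≤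
        ENNReal.ofReal K * P b (cyl (Function.update x n a) (n + 1))) →
        H.card * (K * (1 / b n)) ≤ 8 * (r / len n) ^ s →
        P b (cyl x n ∩ E) ≤ ENNReal.ofReal (8 * (r / len n) ^ s) * P b (cyl x n) := by
      intro K hK h1 h2
      calc P b (cyl x n ∩ E) ≤ ∑ a ∈ H, P b (cyl (Function.update x n a) (n + 1) ∩ E) := hsum
        _ ≤ ∑ a ∈ H, ENNReal.ofReal (K * (1 / b n)) * P b (cyl x n) := by
            refine Finset.sum_le_sum fun a ha => ?_
            refine (h1 a ha).trans ?_
            rw [ENNReal.ofReal_mul hK, mul_assoc]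
            gcongr
            exact hchild a
        _ = ENNReal.ofReal (H.card * (K * (1 / b n))) * P b (cyl x n) := by
            rw [Finset.sum_const, nsmul_eq_mul, ENNReal.ofReal_mul (Nat.cast_nonneg _),
              ENNReal.ofReal_natCast, mul_assoc]
        _ ≤ _ := by gcongr
    have hbn := hb0 n
    have hFn := hF n
    have hln := hlen0 n
    have hln1 := hlen0 (n + 1)
    have hRn := hR1 n
    have hratio : 0 < r / len n := div_pos hr hln
    have hbF : b n + 1 = len n * F n := by rw [hlen]; field_simp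
    by_cases hnr1 : len (n + 1) ≤ r
    · -- scale between the child and the parent
      refine hcomb 1 zero_le_one (fun a _ => ?_) ?_
      · rw [ENNReal.ofReal_one, one_mul]
        exact measure_mono Set.inter_subset_left
      · rw [one_mul]
        have h1 : (H.card : ℝ) ≤ 2 * (r * F n) + 2 := by
          have := hδ n
          nlinarith
        have h2 : r * F n / b n ≤ 2 * (r / len n) ^ s := by
          have h3 : r / len n ≤ (r / len n) ^ s := by
            conv_lhs => rw [← Real.rpow_one (r / len n)]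
            exact Real.rpow_le_rpow_of_exponent_ge hratio (by rw [div_le_one hln]; exact hnr.le) hs1
          have h4 : r * F n / b n ≤ 2 * (r / len n) := by
            rw [div_le_iff₀ hbn]
            have h5 : (1 : ℝ) ≤ b n := by exact_mod_cast hb n
            have h6 : 2 * (r / len n) * b n = (r / len n) * (2 * b n) := by ring
            rw [h6]
            calc r * F n = (r / len n) * (len n * F n) := by field_simp
              _ = (r / len n) * (b n + 1) := by rw [hbF]
              _ ≤ (r / len n) * (2 * b n) := by gcongr; linarith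
          linarith
        have h3 : 3 / b n ≤ (r / len n) ^ s := by
          have h4 : 1 / R n ≤ r / len n := by
            rw [div_le_div_iff₀ (by linarith) hln, one_mul]
            have := hR n
            calc len n ≤ R n * len (n + 1) := this
              _ ≤ R n * r := by gcongr
              _ = r * R n := mul_comm _ _
          have h5 : (1 / R n) ^ s ≤ (r / len n) ^ s :=
            Real.rpow_le_rpow (by positivity) h4 hs0.le
          have h6 : 3 / b n ≤ (1 / R n) ^ s := by
            rw [one_div, Real.inv_rpow (by linarith), div_le_iff₀ hbn]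
            have h7 : 0 < (R n) ^ s := by positivity
            rw [← div_eq_inv_mul, le_div_iff₀ h7]
            exact hRs n
          linarith
        have h7 : (H.card : ℝ) * (1 / b n) ≤ 2 * (r * F n / b n) + 2 / b n := by
          rw [mul_one_div]
          have : 2 * (r * F n / b n) + 2 / b n = (2 * (r * F n) + 2) / b n := by ring
          rw [this]
          gcongr
        have h8 : 2 / (b n : ℝ) ≤ 3 / b n := by gcongr; norm_num
        have h9 : 0 ≤ (r / len n) ^ s := by positivity
        linarith
    · -- small scale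
      push Not at hnr1
      refine hcomb (8 * (r / len (n + 1)) ^ s) (by positivity) (fun a _ => ?_) ?_
      · exact ih (n + 1) (Function.update x n a) (by rw [show n + 1 + j = n + (j + 1) by ring]; exact hmr)
      · have h1 : (H.card : ℝ) ≤ 3 := by
          have h2 := hδ n
          have h3 : r * F n ≤ 1 / 2 := by
            calc r * F n ≤ len (n + 1) * F n := by gcongr
              _ ≤ _ := hlen2 n
          nlinarith
        have h4 : (r / len (n + 1)) ^ s ≤ (r / len n) ^ s * (R n) ^ s := by
          rw [← Real.mul_rpow hratio.le (by linarith)]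
          apply Real.rpow_le_rpow (by positivity) _ hs0.le
          rw [div_le_iff₀ hln1]
          calc r = (r / len n) * len n := by field_simp
            _ ≤ (r / len n) * (R n * len (n + 1)) := by gcongr; exact hR n
            _ = _ := by ring
        have h5 : 3 * (R n) ^ s / b n ≤ 1 := by
          rw [div_le_one hbn]; exact hRs n
        calc (H.card : ℝ) * (8 * (r / len (n + 1)) ^ s * (1 / b n))
            ≤ 3 * (8 * ((r / len n) ^ s * (R n) ^ s) * (1 / b n)) := by gcongr
          _ = 8 * (r / len n) ^ s * (3 * (R n) ^ s / b n) := by ring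
          _ ≤ 8 * (r / len n) ^ s * 1 := by gcongr
          _ = _ := mul_one _

end Pool.Agent.Helper32.FS
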