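import Pool.Agent.Helper32.FS.Level2
import Pool.Agent.Helper32.FS.Decay

/-!
# Series with selected digits

`Arec base b k0 A0 n x` is the partial sum before the place `k0 + n`; the digit at this place is
`base n (partial sum) + x n % b n`.
-/

namespace Pool.Agent.Helper32.FS

open Filter Topology Set Pool.Agent.Helper46.TC
open scoped Nat

/-- Digit at the place `k0 + n`. -/
def dig (base : ℕ → ℝ → ℕ) (b : ℕ → ℕ) (n : ℕ) (a : ℝ) (x : Om) : ℕ := base n a + x n % b n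

/-- Partial sums. -/
noncomputable def Arec (base : ℕ → ℝ → ℕ) (b : ℕ → ℕ) (k0 : ℕ) (A0 : ℝ) : ℕ → Om → ℝ
  | 0, _ => A0
  | n + 1, x => Arec base b k0 A0 n x +
      (dig base b n (Arec base b k0 A0 n x) x : ℝ) / ((k0 + n)! : ℝ)

section

variable (base : ℕ → ℝ → ℕ) (b : ℕ → ℕ) (k0 : ℕ) (A0 : ℝ)

theorem Arec_dep (n : ℕ) (x y : Om) (h : y ∈ cyl x n) :
    Arec base b k0 A0 n y = Arec base b k0 A0 n x := by
  induction n with
  | zero => rfl
  | succ n ih =>
    have h1 := ih (cyl_anti (Nat.le_succ n) h)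
    have h2 : y n = x n := h n (Nat.lt_succ_self n)
    simp only [Arec, dig, h1, h2]

/-- Lower end point of the interval at the level `n`. -/
noncomputable def loF (n : ℕ) (x : Om) : ℝ :=
  Arec base b k0 A0 n x + (base n (Arec base b k0 A0 n x) : ℝ) / ((k0 + n)! : ℝ)

/-- Upper end point. -/
noncomputable def hiF (n : ℕ) (x : Om) : ℝ :=
  loF base b k0 A0 n x + (b n + 1) / ((k0 + n)! : ℝ)

/-- Length. -/
noncomputable def lenF (b : ℕ → ℕ) (k0 : ℕ) (n : ℕ) : ℝ := (b n + 1) / ((k0 + n)! : ℝ)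

theorem hi_sub_lo (n : ℕ) (x : Om) : hiF base b k0 A0 n x - loF base b k0 A0 n x = lenF b k0 n := by
  unfold hiF lenF; ring

theorem loF_dep (n : ℕ) (x y : Om) (h : y ∈ cyl x n) : loF base b k0 A0 n y = loF base b k0 A0 n x := by
  unfold loF; rw [Arec_dep base b k0 A0 n x y h]

theorem hiF_dep (n : ℕ) (x y : Om) (h : y ∈ cyl x n) : hiF base b k0 A0 n y = hiF base b k0 A0 n x := by
  unfold hiF; rw [loF_dep base b k0 A0 n x y h]

theorem fac_pos (m : ℕ) : (0 : ℝ) < (m ! : ℝ) := by exact_mod_cast Nat.factorial_pos m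

theorem A_le_lo (n : ℕ) (x : Om) : Arec base b k0 A0 n x ≤ loF base b k0 A0 n x := by
  unfold loF
  have := fac_pos (k0 + n)
  have : 0 ≤ (base n (Arec base b k0 A0 n x) : ℝ) / ((k0 + n)! : ℝ) := by positivity
  linarith

theorem lo_succ (n : ℕ) (x : Om) : loF base b k0 A0 n x + ((x n % b n : ℕ) : ℝ) / ((k0 + n)! : ℝ) =
    Arec base b k0 A0 (n + 1) x := by
  simp only [loF, Arec, dig]
  push_cast
  ring

theorem lo_le' (n : ℕ) (x : Om) : loF base b k0 A0 n x ≤ loF base b k0 A0 (n + 1) x := by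
  have h1 := lo_succ base b k0 A0 n x
  have h2 := A_le_lo base b k0 A0 (n + 1) x
  have := fac_pos (k0 + n)
  have h3 : 0 ≤ ((x n % b n : ℕ) : ℝ) / ((k0 + n)! : ℝ) := by positivity
  linarith

/-- The tail after the digit. -/
theorem hi_succ_le (w : ℕ → ℝ)
    (hbase : ∀ n a, (base n a : ℝ) + b n + 1 ≤ w n) (n : ℕ) (x : Om) :
    hiF base b k0 A0 (n + 1) x ≤ Arec base b k0 A0 (n + 1) x + w (n + 1) / ((k0 + (n + 1))! : ℝ) := by
  have h := hbase (n + 1) (Arec base b k0 A0 (n + 1) x)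
  unfold hiF loF
  rw [add_assoc, ← add_div]
  have := fac_pos (k0 + (n + 1))
  gcongr
  linarith

theorem hi_le' (w : ℕ → ℝ) (hb : ∀ n, 1 ≤ b n) (hbase : ∀ n a, (base n a : ℝ) + b n + 1 ≤ w n)
    (hw : ∀ n, w (n + 1) ≤ 2 * (k0 + n + 1)) (n : ℕ) (x : Om) :
    hiF base b k0 A0 (n + 1) x ≤ hiF base b k0 A0 n x := by
  have h1 := hi_succ_le base b k0 A0 w hbase n x
  have h2 := lo_succ base b k0 A0 n x
  have hF := fac_pos (k0 + n)
  have h3 : w (n + 1) / ((k0 + (n + 1))! : ℝ) ≤ 2 / ((k0 + n)! : ℝ) := by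
    have e : ((k0 + (n + 1))! : ℝ) = (k0 + n + 1) * ((k0 + n)! : ℝ) := by
      rw [← add_assoc, Nat.factorial_succ]; push_cast; ring
    rw [e, div_le_div_iff₀ (by positivity) hF]
    calc w (n + 1) * ((k0 + n)! : ℝ) ≤ (2 * (k0 + n + 1)) * ((k0 + n)! : ℝ) := by
          gcongr; exact hw n
      _ = _ := by ring
  have h4 : ((x n % b n : ℕ) : ℝ) + 1 ≤ b n := by
    have := Nat.mod_lt (x n) (hb n)
    exact_mod_cast this
  have h5 : ((x n % b n : ℕ) : ℝ) / ((k0 + n)! : ℝ) + 2 / ((k0 + n)! : ℝ) ≤ (b n + 1) / ((k0 + n)! : ℝ) := by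
    rw [← add_div]
    exact div_le_div_of_nonneg_right (by linarith) hF.le
  have h6 : hiF base b k0 A0 n x = loF base b k0 A0 n x + (b n + 1) / ((k0 + n)! : ℝ) := rfl
  linarith

end

end Pool.Agent.Helper32.FS
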