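import Pool.Agent.Helper32.FS.Digits

/-!
# Existence of the tree of factorial series
-/

namespace Pool.Agent.Helper32.FS

open Filter Topology Set Pool.Agent.Helper46.TC
open scoped Nat

theorem exp_le_fac : ∀ᶠ k : ℕ in atTop, 2 * (k : ℝ) * Real.exp k ≤ (k ! : ℝ) := by
  have h1 : Tendsto (fun k : ℕ => (6 : ℝ) ^ k / (k ! : ℝ)) atTop (𝓝 0) :=
    FloorSemiring.tendsto_pow_div_factorial_atTop 6
  filter_upwards [h1.eventually_le_const (zero_lt_one), eventually_ge_atTop 1] with k hk hk1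
  have hf := fac_pos k
  rw [div_le_one hf] at hk
  have h2 : 2 * (k : ℝ) ≤ 2 ^ k := by
    have : 2 * k ≤ 2 ^ k := by
      induction k with
      | zero => simp
      | succ n ih =>
        rcases Nat.eq_zero_or_pos n with h | h
        · subst h; norm_num
        · have h2 : n + 1 ≤ 2 ^ n := Nat.lt_two_pow_self
          rw [pow_succ]; omega
    exact_mod_cast this
  have h3 : Real.exp k ≤ 3 ^ k := by
    have : Real.exp (k : ℝ) = Real.exp 1 ^ k := by rw [← Real.exp_nat_mul]; simp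
    rw [this]
    have := Real.exp_one_lt_d9
    gcongr
    linarith
  calc 2 * (k : ℝ) * Real.exp k ≤ 2 ^ k * 3 ^ k := by gcongr
    _ = 6 ^ k := by rw [← mul_pow]; norm_num
    _ ≤ _ := hk

/-- The conditions used at each place. -/
def Ok (ε η : ℝ) (k : ℕ) : Prop :=
  4 * ((k : ℝ) + 1) ^ (ε - 1) ≤ 1 / 2 ∧ 12 ≤ (k : ℝ) ^ (ε / 8) ∧ 2 * (k : ℝ) * Real.exp k ≤ (k ! : ℝ) ∧
    100 * (k : ℝ) ^ 4 ≤ η * (k ! : ℝ) ∧ 16 ≤ k

theorem ok_eventually (ε η : ℝ) (hε0 : 0 < ε) (hε1 : ε ≤ 1 / 2) (hη : 0 < η) :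
    ∀ᶠ k : ℕ in atTop, Ok ε η k := by
  filter_upwards [rpow_large (1 / 2) 8 (by norm_num), rpow_large (ε / 8) 12 (by positivity),
    exp_le_fac, pow_div_fac 100 η hη, eventually_ge_atTop 16] with k h1 h2 h3 h4 h5
  refine ⟨?_, h2, h3, h4, h5⟩
  have hk1 : (1 : ℝ) ≤ k := by exact_mod_cast (by omega : 1 ≤ k)
  have hk0 : (0 : ℝ) < k := by linarith
  have h6 : ((k : ℝ) + 1) ^ (ε - 1) ≤ (k : ℝ) ^ (-(1 / 2) : ℝ) := by
    calc ((k : ℝ) + 1) ^ (ε - 1) ≤ (k : ℝ) ^ (ε - 1) :=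
          Real.rpow_le_rpow_of_nonpos hk0 (by linarith) (by linarith)
      _ ≤ (k : ℝ) ^ (-(1 / 2) : ℝ) := Real.rpow_le_rpow_of_exponent_le hk1 (by linarith)
  have h7 : (k : ℝ) ^ (-(1 / 2) : ℝ) ≤ 1 / 8 := by
    rw [Real.rpow_neg hk0.le, inv_le_comm₀ (by positivity) (by norm_num)]
    norm_num
    norm_num at h1
    exact h1
  linarith

theorem rpow_le_self (ε x : ℝ) (hε : ε ≤ 1) (hx : 1 ≤ x) : x ^ ε ≤ x := by
  conv_rhs => rw [← Real.rpow_one x]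
  exact Real.rpow_le_rpow_of_exponent_le hx hε

theorem B_mono (ε : ℝ) (hε : 0 < ε) (k : ℕ) : B ε k ≤ B ε (k + 1) := by
  unfold B
  apply Nat.floor_le_floor
  push_cast
  exact Real.rpow_le_rpow (Nat.cast_nonneg k) (by linarith) (by positivity)

theorem B_le_self (ε : ℝ) (hε1 : ε ≤ 1) (k : ℕ) (hk : 1 ≤ k) : (B ε k : ℝ) ≤ k :=
  (B_le ε k).trans (rpow_le_self _ _ (by linarith) (by exact_mod_cast hk))

/-- The tail after a digit. -/
theorem tail_le (ε : ℝ) (hε0 : 0 < ε) (k : ℕ) :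
    (((k : ℝ) + 1) ^ ε + 1) / ((k + 1)! : ℝ) ≤ 4 * ((k : ℝ) + 1) ^ (ε - 1) / (k ! : ℝ) := by
  have hk : (0 : ℝ) < (k : ℝ) + 1 := by positivity
  have hF := fac_pos k
  have e : ((k + 1)! : ℝ) = (k + 1) * (k ! : ℝ) := by
    rw [Nat.factorial_succ]; push_cast; ring
  have h1 : 1 ≤ ((k : ℝ) + 1) ^ ε := Real.one_le_rpow (by linarith [Nat.cast_nonneg (α := ℝ) k]) hε0.le
  have h2 : ((k : ℝ) + 1) ^ (ε - 1) * ((k : ℝ) + 1) = ((k : ℝ) + 1) ^ ε := by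
    rw [Real.rpow_sub_one hk.ne']; field_simp
  rw [e, div_le_div_iff₀ (by positivity) hF]
  calc (((k : ℝ) + 1) ^ ε + 1) * (k ! : ℝ) ≤ (4 * ((k : ℝ) + 1) ^ ε) * (k ! : ℝ) := by gcongr; linarith
    _ = 4 * ((k : ℝ) + 1) ^ (ε - 1) * ((k + 1) * (k ! : ℝ)) := by rw [← h2]; ring

theorem len_ratio (ε : ℝ) (hε : 0 < ε) (k0 n : ℕ) :
    lenF (fun n => B ε (k0 + n)) k0 n ≤ ((k0 + n : ℕ) + 1) * lenF (fun n => B ε (k0 + n)) k0 (n + 1) := by
  unfold lenF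
  have hF := fac_pos (k0 + n)
  have e : ((k0 + (n + 1))! : ℝ) = ((k0 + n : ℕ) + 1) * ((k0 + n)! : ℝ) := by
    rw [← add_assoc, Nat.factorial_succ]; push_cast; ring
  rw [e]
  have h1 : (B ε (k0 + n) : ℝ) ≤ B ε (k0 + (n + 1)) := by
    exact_mod_cast B_mono ε hε (k0 + n)
  have hk : (0 : ℝ) < ((k0 + n : ℕ) : ℝ) + 1 := by positivity
  calc ((B ε (k0 + n) : ℝ) + 1) / ((k0 + n)! : ℝ) ≤ ((B ε (k0 + (n + 1)) : ℝ) + 1) / ((k0 + n)! : ℝ) := by
        gcongr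
    _ = _ := by field_simp

theorem len_tend (ε : ℝ) (hε1 : ε ≤ 1) (k0 : ℕ) (hk0 : 1 ≤ k0) :
    Tendsto (lenF (fun n => B ε (k0 + n)) k0) atTop (𝓝 0) := by
  rw [Metric.tendsto_atTop]
  intro c hc
  have h1 := pow_div_fac 4 c hc
  have h2 : Tendsto (fun n : ℕ => k0 + n) atTop atTop := tendsto_atTop_mono (fun n => Nat.le_add_left n k0)
    tendsto_id
  obtain ⟨N, hN⟩ := eventually_atTop.mp (h2.eventually h1)
  refine ⟨N, fun n hn => ?_⟩
  have h3 := hN n hn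
  have hF := fac_pos (k0 + n)
  have h4 := B_le_self ε hε1 (k0 + n) (by omega)
  have hk1 : (1 : ℝ) ≤ ((k0 + n : ℕ) : ℝ) := by exact_mod_cast (by omega : 1 ≤ k0 + n)
  have h5 : ((k0 + n : ℕ) : ℝ) ≤ ((k0 + n : ℕ) : ℝ) ^ 4 := le_self_pow₀ hk1 (by norm_num)
  have h6 : 0 ≤ lenF (fun n => B ε (k0 + n)) k0 n := by unfold lenF; positivity
  rw [Real.dist_eq, sub_zero, abs_of_nonneg h6]
  unfold lenF
  rw [div_lt_iff₀ hF]
  linarith

/-- The condition on the ratios of the lengths. -/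
theorem log_ratio (ε η : ℝ) (hε : 0 < ε) (hε1 : ε ≤ 1) (k0 n : ℕ) (hok : Ok ε η (k0 + n)) :
    lenF (fun n => B ε (k0 + n)) k0 n ≤ 2 * (1 + |Real.log (lenF (fun n => B ε (k0 + n)) k0 n)|) *
      lenF (fun n => B ε (k0 + n)) k0 (n + 1) := by
  have h1 := len_ratio ε hε k0 n
  refine h1.trans ?_
  have hF := fac_pos (k0 + n)
  have hk16 := hok.2.2.2.2
  have hk1 : (1 : ℝ) ≤ ((k0 + n : ℕ) : ℝ) := by exact_mod_cast (by omega : 1 ≤ k0 + n)
  have h4 := B_le_self ε hε1 (k0 + n) (by omega)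
  have h5 : lenF (fun n => B ε (k0 + n)) k0 n ≤ Real.exp (-((k0 + n : ℕ) : ℝ)) := by
    unfold lenF
    rw [Real.exp_neg, ← one_div, div_le_div_iff₀ hF (Real.exp_pos _), one_mul]
    refine le_trans ?_ hok.2.2.1
    gcongr
    linarith
  have hpos : 0 < lenF (fun n => B ε (k0 + n)) k0 n := by unfold lenF; positivity
  have h6 : Real.log (lenF (fun n => B ε (k0 + n)) k0 n) ≤ -((k0 + n : ℕ) : ℝ) := by
    rw [Real.log_le_iff_le_exp hpos]; exact h5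
  have h7 : ((k0 + n : ℕ) : ℝ) ≤ |Real.log (lenF (fun n => B ε (k0 + n)) k0 n)| := by
    have := neg_abs_le (Real.log (lenF (fun n => B ε (k0 + n)) k0 n))
    linarith
  have h8 : 0 ≤ lenF (fun n => B ε (k0 + n)) k0 (n + 1) := by unfold lenF; positivity
  gcongr
  linarith

end Pool.Agent.Helper32.FS
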