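import Pool.Agent.Helper32.FS.ExTree

/-!
# Existence of the tree of factorial series, main statement
-/

namespace Pool.Agent.Helper32.FS

open Filter Topology Set Pool.Agent.Helper46.TC
open scoped Nat

theorem partial_exp (k0 : ℕ) (hk : 5 ≤ k0) : 27 / 10 ≤ ∑ i ∈ Finset.range k0, (1 : ℝ) / (i ! : ℝ) ∧
    |Real.exp 1 - ∑ i ∈ Finset.range k0, (1 : ℝ) / (i ! : ℝ)| ≤ 2 / (k0 ! : ℝ) := by
  constructor
  · calc (27 / 10 : ℝ) ≤ ∑ i ∈ Finset.range 5, (1 : ℝ) / (i ! : ℝ) := by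
          simp only [Finset.sum_range_succ, Finset.sum_range_zero, Nat.factorial]
          norm_num
      _ ≤ _ := by
          apply Finset.sum_le_sum_of_subset_of_nonneg
          · intro i hi
            rw [Finset.mem_range] at *
            omega
          · intro i _ _
            positivity
  · have h := Real.exp_bound (x := 1) (by simp) (n := k0) (by omega)
    have hk0 : (0 : ℝ) < k0 := by exact_mod_cast (by omega : 0 < k0)
    have hF := fac_pos k0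
    calc |Real.exp 1 - ∑ i ∈ Finset.range k0, (1 : ℝ) / (i ! : ℝ)|
        = |Real.exp 1 - ∑ m ∈ Finset.range k0, (1 : ℝ) ^ m / (m ! : ℝ)| := by simp
      _ ≤ |1| ^ k0 * ((k0.succ : ℝ) / ((k0 ! : ℝ) * k0)) := h
      _ ≤ 2 / (k0 ! : ℝ) := by
          rw [abs_one, one_pow, one_mul, div_le_div_iff₀ (by positivity) hF]
          have : ((k0.succ : ℕ) : ℝ) ≤ 2 * k0 := by
            push_cast
            have : (1 : ℝ) ≤ k0 := by exact_mod_cast (by omega : 1 ≤ k0)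
            linarith
          calc ((k0.succ : ℕ) : ℝ) * (k0 ! : ℝ) ≤ (2 * k0) * (k0 ! : ℝ) := by gcongr
            _ = _ := by ring

theorem exists_tree (ε : ℝ) (hε0 : 0 < ε) (hε1 : ε ≤ 1 / 2) (r : ℕ) (hr : 1 ≤ r) (l : ℝ) (hl0 : 0 < l)
    (hl1 : l < 1) (hlr : 4 / l ≤ (27 / 10) ^ r) (η : ℝ) (hη0 : 0 < η) (hη1 : η ≤ 1 / 100) :
    ∃ (T : Tree) (k0 : ℕ) (A : ℕ → Om → ℝ) (d : ℕ → Om → ℕ) (S : ℕ → Om → Finset ℕ),
      5 ≤ k0 ∧ (∀ x, A 0 x = ∑ i ∈ Finset.range k0, (1 : ℝ) / (i ! : ℝ)) ∧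
      (∀ n x, A (n + 1) x = A n x + (d n x : ℝ) / ((k0 + n)! : ℝ)) ∧
      (∀ n x, 1 ≤ d n x ∧ (d n x : ℝ) ≤ ((k0 + n : ℕ) : ℝ) ^ ε) ∧
      (∀ x, Tendsto (fun n => A n x) atTop (𝓝 (T.pt x))) ∧
      (∀ x, |T.pt x - Real.exp 1| < η) ∧ (∀ x, 27 / 10 ≤ T.pt x ∧ T.pt x ≤ 28 / 10) ∧
      (∀ n x, 9 / 20 * ε / r * Real.log ((k0 + n : ℕ) : ℝ) ≤ (S n x).card) ∧
      (∀ n x, ∀ m ∈ S n x, 1 ≤ m ∧ Int.fract (T.pt x ^ m) < l ∧
        ((k0 + n)! : ℝ) / ((k0 + n : ℕ) : ℝ) ^ ε ≤ m * T.pt x ^ (m - 1) ∧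
        m * T.pt x ^ (m - 1) ≤ ((k0 + n)! : ℝ)) ∧ ∀ x, 0 ≤ T.lo 0 x := by
  obtain ⟨k0, hk0⟩ := eventually_atTop.mp ((level ε hε0 hε1 r hr l hl0 hl1 hlr).and
    (ok_eventually ε η hε0 hε1 hη0))
  -- make sure that k0 ≥ 16
  have hk16 : 16 ≤ k0 := (hk0 k0 le_rfl).2.2.2.2.2
  have hlev : ∀ (n : ℕ) (a : ℝ), ∃ base : ℕ, ∃ S : Finset ℕ, 1 ≤ base ∧
      (base : ℝ) + B ε (k0 + n) ≤ ((k0 + n : ℕ) : ℝ) ^ ε ∧
      (27 / 10 ≤ a → a ≤ 28 / 10 → 9 / 20 * ε / r * Real.log ((k0 + n : ℕ) : ℝ) ≤ S.card ∧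
      ∀ α : ℝ, a + base / ((k0 + n)! : ℝ) ≤ α →
        α ≤ a + (base + B ε (k0 + n) - 1) / ((k0 + n)! : ℝ) +
          4 * (((k0 + n : ℕ) : ℝ) + 1) ^ (ε - 1) / ((k0 + n)! : ℝ) → ∀ m ∈ S,
        1 ≤ m ∧ Int.fract (α ^ m) < l ∧ ((k0 + n)! : ℝ) / ((k0 + n : ℕ) : ℝ) ^ ε ≤ m * α ^ (m - 1) ∧
          m * α ^ (m - 1) ≤ ((k0 + n)! : ℝ)) := by
    intro n a
    have hl := (hk0 (k0 + n) (by omega)).1
    by_cases ha : 27 / 10 ≤ a ∧ a ≤ 28 / 10
    · obtain ⟨base, S, h1, h2, h3, h4⟩ := hl a ha.1 ha.2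
      exact ⟨base, S, h1, h2, fun _ _ => ⟨h3, h4⟩⟩
    · obtain ⟨base, S, h1, h2, -⟩ := hl (27 / 10) le_rfl (by norm_num)
      exact ⟨base, ∅, h1, h2, fun h3 h4 => absurd ⟨h3, h4⟩ ha⟩
  choose base S hb1 hb2 hb3 using hlev
  have hok : ∀ n, Ok ε η (k0 + n) := fun n => (hk0 (k0 + n) (by omega)).2
  obtain ⟨b, hb⟩ : ∃ b : ℕ → ℕ, b = fun n => B ε (k0 + n) := ⟨_, rfl⟩
  have hbn : ∀ n, b n = B ε (k0 + n) := fun n => by rw [hb]
  have hbpos : ∀ n, 1 ≤ b n := fun n => by rw [hbn]; exact B_pos ε hε0 _ (by omega)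
  have hb0 : ∀ n, (0 : ℝ) < b n := fun n => by exact_mod_cast hbpos n
  obtain ⟨A0, hA0⟩ : ∃ A0 : ℝ, A0 = ∑ i ∈ Finset.range k0, (1 : ℝ) / (i ! : ℝ) := ⟨_, rfl⟩
  have hA0' := partial_exp k0 (by omega)
  rw [← hA0] at hA0'
  -- bounds
  have hbase : ∀ n a, (base n a : ℝ) + b n + 1 ≤ ((k0 + n : ℕ) : ℝ) ^ ε + 1 := fun n a => by
    have := hb2 n a
    rw [hbn]; linarith
  have hw : ∀ n, ((k0 + (n + 1) : ℕ) : ℝ) ^ ε + 1 ≤ 2 * ((k0 : ℝ) + n + 1) := fun n => by
    have h1 : (1 : ℝ) ≤ ((k0 + (n + 1) : ℕ) : ℝ) := by exact_mod_cast (by omega : 1 ≤ k0 + (n + 1))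
    have h2 := rpow_le_self ε _ (by linarith) h1
    push_cast at h1 h2 ⊢
    linarith
  have hlole := lo_le' base b k0 A0
  have hhile := hi_le' base b k0 A0 (fun n => ((k0 + n : ℕ) : ℝ) ^ ε + 1) hbpos hbase hw
  have hlen : lenF b k0 = lenF (fun n => B ε (k0 + n)) k0 := by rw [hb]
  have htend : Tendsto (lenF b k0) atTop (𝓝 0) := by
    rw [hlen]; exact len_tend ε (by linarith) k0 (by omega)
  have hlt : ∀ n x, loF base b k0 A0 n x < hiF base b k0 A0 n x := fun n x => by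
    have h1 := hi_sub_lo base b k0 A0 n x
    have h2 : 0 < lenF b k0 n := by
      unfold lenF; have := hb0 n; have := fac_pos (k0 + n); positivity
    linarith
  have hlomono : ∀ x, Monotone fun n => loF base b k0 A0 n x := fun x =>
    monotone_nat_of_le_succ fun n => hlole n x
  have hhianti : ∀ x, Antitone fun n => hiF base b k0 A0 n x := fun x =>
    antitone_nat_of_succ_le fun n => hhile n x
  have hlohi : ∀ m n x, loF base b k0 A0 m x ≤ hiF base b k0 A0 n x := fun m n x =>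
    (hlomono x (le_max_left m n)).trans ((hlt (max m n) x).le.trans (hhianti x (le_max_right m n)))
  have hbdd : ∀ x, BddAbove (range fun n => loF base b k0 A0 n x) := fun x =>
    ⟨hiF base b k0 A0 0 x, by rintro _ ⟨n, rfl⟩; exact hlohi n 0 x⟩
  have hpt1 : ∀ n x, loF base b k0 A0 n x ≤ ptOf (loF base b k0 A0) x := fun n x => le_ciSup (hbdd x) n
  have hpt2 : ∀ n x, ptOf (loF base b k0 A0) x ≤ hiF base b k0 A0 n x := fun n x =>
    ciSup_le fun m => hlohi m n x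
  -- the tail
  obtain ⟨δ, hδ⟩ : ∃ δ : ℕ → ℝ, δ = fun n =>
    4 * (((k0 + n : ℕ) : ℝ) + 1) ^ (ε - 1) / ((k0 + n)! : ℝ) := ⟨_, rfl⟩
  have hδn : ∀ n, δ n = 4 * (((k0 + n : ℕ) : ℝ) + 1) ^ (ε - 1) / ((k0 + n)! : ℝ) := fun n => by rw [hδ]
  have hδ0 : ∀ n, 0 ≤ δ n := fun n => by
    rw [hδn]
    have := fac_pos (k0 + n)
    positivity
  have htail : ∀ n x, ptOf (loF base b k0 A0) x ≤ loF base b k0 A0 n x +
      ((x n % b n : ℕ) : ℝ) / ((k0 + n)! : ℝ) + δ n := by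
    intro n x
    rw [lo_succ]
    have h1 := hi_succ_le base b k0 A0 (fun n => ((k0 + n : ℕ) : ℝ) ^ ε + 1) hbase n x
    have h2 := tail_le ε hε0 (k0 + n)
    have h3 : (((k0 + (n + 1) : ℕ) : ℝ) ^ ε + 1) / ((k0 + (n + 1))! : ℝ) ≤ δ n := by
      rw [hδn]
      have e : ((k0 + (n + 1) : ℕ) : ℝ) = ((k0 + n : ℕ) : ℝ) + 1 := by push_cast; ring
      rw [e]
      exact h2
    have h4 := hpt2 (n + 1) x
    linarith
  have hhead : ∀ n x, loF base b k0 A0 n x + ((x n % b n : ℕ) : ℝ) / ((k0 + n)! : ℝ) ≤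
      ptOf (loF base b k0 A0) x := by
    intro n x
    rw [lo_succ]
    exact (A_le_lo base b k0 A0 (n + 1) x).trans (hpt1 (n + 1) x)
  have hdecay : ∀ (y r : ℝ) (n : ℕ) (x : Om), 0 < r →
      P b (cyl x n ∩ {z | |ptOf (loF base b k0 A0) z - y| < r}) ≤
        ENNReal.ofReal (8 * (r / (hiF base b k0 A0 n x - loF base b k0 A0 n x)) ^ (ε / 8)) *
          P b (cyl x n) := by
    intro y r n x hr
    rw [hi_sub_lo]
    refine decay_main b hbpos _ (loF base b k0 A0) (fun n x z hz => loF_dep base b k0 A0 n x z hz)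
      (fun n => ((k0 + n)! : ℝ)) δ (fun n => ((k0 + n : ℕ) : ℝ) + 1) (fun n => fac_pos _) hδ0 hhead htail
      ?_ (lenF b k0) (fun n => rfl) ?_ (ε / 8) (by positivity) (by linarith) ?_ ?_ ?_ htend y r n x hr
    · intro n
      rw [hδn, div_mul_cancel₀ _ (fac_pos _).ne']
      exact (hok n).1
    · intro n
      have hF := fac_pos (k0 + n)
      have e : ((k0 + (n + 1))! : ℝ) = ((k0 + n : ℕ) + 1) * ((k0 + n)! : ℝ) := by
        rw [← add_assoc, Nat.factorial_succ]; push_cast; ring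
      unfold lenF
      rw [e]
      have h1 : (b (n + 1) : ℝ) ≤ (((k0 + n : ℕ) : ℝ) + 1) ^ (1 / 2 : ℝ) := by
        rw [hbn]
        refine (B_le ε _).trans ?_
        have e2 : ((k0 + (n + 1) : ℕ) : ℝ) = ((k0 + n : ℕ) : ℝ) + 1 := by push_cast; ring
        rw [e2]
        exact Real.rpow_le_rpow_of_exponent_le (by linarith [Nat.cast_nonneg (α := ℝ) (k0 + n)])
          (by linarith)
      rw [← Real.sqrt_eq_rpow] at h1
      have hk : (0 : ℝ) < ((k0 + n : ℕ) : ℝ) + 1 := by positivity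
      have h16 : (16 : ℝ) ≤ ((k0 + n : ℕ) : ℝ) := by exact_mod_cast (by omega : 16 ≤ k0 + n)
      have h2 : Real.sqrt (((k0 + n : ℕ) : ℝ) + 1) ≤ (((k0 + n : ℕ) : ℝ) + 1) / 4 := by
        rw [Real.sqrt_le_left (by positivity)]
        nlinarith
      have h3 : ((b (n + 1) : ℝ) + 1) / ((((k0 + n : ℕ) : ℝ) + 1) * ((k0 + n)! : ℝ)) * ((k0 + n)! : ℝ) =
          ((b (n + 1) : ℝ) + 1) / (((k0 + n : ℕ) : ℝ) + 1) := by field_simp
      rw [h3, div_le_div_iff₀ hk (by norm_num)]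
      linarith
    · intro n
      have := Nat.cast_nonneg (α := ℝ) (k0 + n)
      linarith
    · intro n
      rw [hlen]
      exact len_ratio ε hε0 k0 n
    · intro n
      rw [hbn]
      have hk1 : (1 : ℝ) ≤ ((k0 + n : ℕ) : ℝ) := by exact_mod_cast (by omega : 1 ≤ k0 + n)
      have hk0' : (0 : ℝ) < ((k0 + n : ℕ) : ℝ) := by linarith
      have h1 := B_ge ε hε0 (k0 + n) (by omega)
      have h12 := (hok n).2.1
      have h2 : (((k0 + n : ℕ) : ℝ) + 1) ^ (ε / 8) ≤ 2 * ((k0 + n : ℕ) : ℝ) ^ (ε / 8) := by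
        calc (((k0 + n : ℕ) : ℝ) + 1) ^ (ε / 8) ≤ (2 * ((k0 + n : ℕ) : ℝ)) ^ (ε / 8) := by
              apply Real.rpow_le_rpow (by positivity) (by linarith) (by positivity)
          _ = 2 ^ (ε / 8) * ((k0 + n : ℕ) : ℝ) ^ (ε / 8) := Real.mul_rpow (by norm_num) hk0'.le
          _ ≤ 2 * ((k0 + n : ℕ) : ℝ) ^ (ε / 8) := by
              gcongr
              exact rpow_le_self _ _ (by linarith) (by norm_num)
      have h3 : ((k0 + n : ℕ) : ℝ) ^ (ε / 4) = ((k0 + n : ℕ) : ℝ) ^ (ε / 8) * ((k0 + n : ℕ) : ℝ) ^ (ε / 8) := by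
        rw [← Real.rpow_add hk0']; congr 1; ring
      have h4 : 0 < ((k0 + n : ℕ) : ℝ) ^ (ε / 8) := by positivity
      have h5 : 12 * ((k0 + n : ℕ) : ℝ) ^ (ε / 8) ≤
          ((k0 + n : ℕ) : ℝ) ^ (ε / 8) * ((k0 + n : ℕ) : ℝ) ^ (ε / 8) := by gcongr
      rw [h3] at h1
      linarith
  -- the tree
  let T : Tree :=
    { b := b
      lo := loF base b k0 A0
      hi := hiF base b k0 A0
      dep_lo := fun n x y h => loF_dep base b k0 A0 n x y h
      dep_hi := fun n x y h => hiF_dep base b k0 A0 n x y h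
      lt := hlt
      lo_le := hlole
      hi_le := hhile
      tend := fun x => by
        have : (fun n => hiF base b k0 A0 n x - loF base b k0 A0 n x) = lenF b k0 := by
          funext n; exact hi_sub_lo base b k0 A0 n x
        rw [this]; exact htend
      s := ε / 8
      C := 8
      ρ := 2
      hs := by positivity
      hC := by norm_num
      hρ := by norm_num
      decay := hdecay
      ratio := fun n x => by
        rw [hi_sub_lo, hi_sub_lo, hlen]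
        exact log_ratio ε η hε0 (by linarith) k0 n (hok n) }
  have hT1 : ∀ n x, loF base b k0 A0 n x ≤ T.pt x := hpt1
  have hT2 : ∀ n x, T.pt x ≤ hiF base b k0 A0 n x := hpt2
  have hT3 : ∀ n x, T.pt x ≤ loF base b k0 A0 n x +
      ((x n % b n : ℕ) : ℝ) / ((k0 + n)! : ℝ) + δ n := htail
  -- range of the partial sums
  have hAmono : ∀ x, Monotone fun n => Arec base b k0 A0 n x := fun x =>
    monotone_nat_of_le_succ fun n => by
      have := fac_pos (k0 + n)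
      simp only [Arec]
      have : 0 ≤ (dig base b n (Arec base b k0 A0 n x) x : ℝ) / ((k0 + n)! : ℝ) := by positivity
      linarith
  have hsmall : (((k0 : ℝ)) ^ ε + 1) / (k0 ! : ℝ) ≤ η / 4 ∧ 2 / (k0 ! : ℝ) ≤ η / 4 := by
    have h0 := (hok 0).2.2.2.1
    rw [Nat.add_zero] at h0
    have hk1 : (1 : ℝ) ≤ k0 := by exact_mod_cast (by omega : 1 ≤ k0)
    have h1 := rpow_le_self ε _ (by linarith) hk1
    have h2 : (k0 : ℝ) ≤ (k0 : ℝ) ^ 4 := le_self_pow₀ hk1 (by norm_num)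
    have hF := fac_pos k0
    constructor
    · rw [div_le_iff₀ hF]; linarith
    · rw [div_le_iff₀ hF]; linarith
  have hhi0 : ∀ x, hiF base b k0 A0 0 x ≤ A0 + η / 4 := by
    intro x
    have h1 : hiF base b k0 A0 0 x = A0 + ((base 0 A0 : ℝ) + b 0 + 1) / ((k0 + 0)! : ℝ) := by
      simp only [hiF, loF, Arec]; ring
    rw [h1]
    have h2 := hbase 0 A0
    rw [Nat.add_zero] at h2 ⊢
    have hF := fac_pos k0
    have h3 : ((base 0 A0 : ℝ) + b 0 + 1) / (k0 ! : ℝ) ≤ ((k0 : ℝ) ^ ε + 1) / (k0 ! : ℝ) := by gcongr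
    linarith [hsmall.1]
  have he1 := Real.exp_one_lt_d9
  have hAe := abs_le.mp hA0'.2
  have hptA : ∀ x, A0 ≤ T.pt x := fun x => (A_le_lo base b k0 A0 0 x).trans (hT1 0 x)
  have hptU : ∀ x, T.pt x ≤ A0 + η / 4 := fun x => (hT2 0 x).trans (hhi0 x)
  have hArange : ∀ n x, 27 / 10 ≤ Arec base b k0 A0 n x ∧ Arec base b k0 A0 n x ≤ 28 / 10 := by
    intro n x
    constructor
    · have : A0 ≤ Arec base b k0 A0 n x := hAmono x (Nat.zero_le n)
      linarith [hA0'.1]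
    · have h1 : Arec base b k0 A0 n x ≤ hiF base b k0 A0 0 x :=
        (A_le_lo base b k0 A0 n x).trans (hlohi n 0 x)
      have h2 := hhi0 x
      have h3 := hsmall.2
      linarith
  refine ⟨T, k0, Arec base b k0 A0, fun n x => dig base b n (Arec base b k0 A0 n x) x,
    fun n x => S n (Arec base b k0 A0 n x), by omega, fun x => hA0, fun n x => rfl, ?_, ?_, ?_, ?_, ?_, ?_, ?_⟩
  · intro n x
    have h1 := hb1 n (Arec base b k0 A0 n x)
    have h2 := hb2 n (Arec base b k0 A0 n x)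
    have h3 := Nat.mod_lt (x n) (hbpos n)
    constructor
    · simp only [dig]; omega
    · have h4 : ((x n % b n : ℕ) : ℝ) ≤ b n := by exact_mod_cast h3.le
      simp only [dig]
      push_cast
      rw [← hbn] at h2
      push_cast at h2 h4
      linarith
  · intro x
    have h1 : Tendsto (fun n => T.pt x - (((k0 + n : ℕ) : ℝ) ^ ε + 1) / ((k0 + n)! : ℝ)) atTop (𝓝 (T.pt x)) := by
      have h2 : Tendsto (fun n : ℕ => (((k0 + n : ℕ) : ℝ) ^ ε + 1) / ((k0 + n)! : ℝ)) atTop (𝓝 0) := by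
        rw [Metric.tendsto_atTop]
        intro c hc
        have h1 := pow_div_fac 4 c hc
        have h2 : Tendsto (fun n : ℕ => k0 + n) atTop atTop :=
          tendsto_atTop_mono (fun n => Nat.le_add_left n k0) tendsto_id
        obtain ⟨N, hN⟩ := eventually_atTop.mp (h2.eventually h1)
        refine ⟨N, fun n hn => ?_⟩
        have h3 := hN n hn
        have hF := fac_pos (k0 + n)
        have hk1 : (1 : ℝ) ≤ ((k0 + n : ℕ) : ℝ) := by exact_mod_cast (by omega : 1 ≤ k0 + n)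
        have h4 := rpow_le_self ε _ (by linarith) hk1
        have h5 : ((k0 + n : ℕ) : ℝ) ≤ ((k0 + n : ℕ) : ℝ) ^ 4 := le_self_pow₀ hk1 (by norm_num)
        rw [Real.dist_eq, sub_zero, abs_of_nonneg (by positivity), div_lt_iff₀ hF]
        linarith
      have := (tendsto_const_nhds (x := T.pt x)).sub h2
      simpa using this
    refine tendsto_of_tendsto_of_tendsto_of_le_of_le h1 tendsto_const_nhds ?_ ?_
    · intro n
      have h2 := hT2 n x
      have h3 : hiF base b k0 A0 n x ≤ Arec base b k0 A0 n x +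
          (((k0 + n : ℕ) : ℝ) ^ ε + 1) / ((k0 + n)! : ℝ) := by
        have h4 := hbase n (Arec base b k0 A0 n x)
        have hF := fac_pos (k0 + n)
        have h5 : hiF base b k0 A0 n x = Arec base b k0 A0 n x +
            ((base n (Arec base b k0 A0 n x) : ℝ) + b n + 1) / ((k0 + n)! : ℝ) := by
          simp only [hiF, loF]; ring
        rw [h5]
        gcongr
      simp only
      linarith
    · intro n
      exact (A_le_lo base b k0 A0 n x).trans (hT1 n x)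
  · intro x
    have h1 := hptA x
    have h2 := hptU x
    have h3 := hsmall.2
    rw [abs_lt]
    constructor <;> linarith
  · intro x
    have h1 := hptA x
    have h2 := hptU x
    have h3 := hsmall.2
    constructor
    · linarith [hA0'.1]
    · linarith
  · intro n x
    exact (hb3 n _ (hArange n x).1 (hArange n x).2).1
  · intro n x m hm
    refine (hb3 n _ (hArange n x).1 (hArange n x).2).2 (T.pt x) ?_ ?_ m hm
    · exact hT1 n x
    · have h1 := hT3 n x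
      have h3 : ((x n % b n : ℕ) : ℝ) ≤ (b n : ℝ) - 1 := by
        have := Nat.mod_lt (x n) (hbpos n)
        have h4 : ((x n % b n : ℕ) : ℝ) + 1 ≤ b n := by exact_mod_cast this
        linarith
      have hF := fac_pos (k0 + n)
      have h5 : ((x n % b n : ℕ) : ℝ) / ((k0 + n)! : ℝ) ≤ ((b n : ℝ) - 1) / ((k0 + n)! : ℝ) := by gcongr
      have h6 : loF base b k0 A0 n x = Arec base b k0 A0 n x +
          (base n (Arec base b k0 A0 n x) : ℝ) / ((k0 + n)! : ℝ) := rfl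
      rw [← hbn, ← hδn]
      have h7 : ((base n (Arec base b k0 A0 n x) : ℝ) + b n - 1) / ((k0 + n)! : ℝ) =
          (base n (Arec base b k0 A0 n x) : ℝ) / ((k0 + n)! : ℝ) + ((b n : ℝ) - 1) / ((k0 + n)! : ℝ) := by
        rw [← add_div]; congr 1; ring
      rw [h7]
      linarith
  · intro x
    have h1 : A0 ≤ T.lo 0 x := A_le_lo base b k0 A0 0 x
    linarith [hA0'.1]

end Pool.Agent.Helper32.FS
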