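import Pool.Agent.Helper32.FS.Base

/-!
# The frequency of the controlled exponents
-/

namespace Pool.Agent.Helper32.FS

open Filter Topology
open scoped Nat

theorem sum_log (k' M : ℕ) : ∑ n ∈ Finset.range M, Real.log ((k' + 1 + n : ℕ) : ℝ) + Real.log (k' ! : ℝ) =
    Real.log ((k' + M)! : ℝ) := by
  induction M with
  | zero => simp
  | succ M ih =>
    rw [Finset.sum_range_succ, add_right_comm, ih]
    have h1 : ((k' + (M + 1))! : ℝ) = ((k' + M)! : ℝ) * ((k' + 1 + M : ℕ) : ℝ) := by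
      rw [← add_assoc, Nat.factorial_succ]; push_cast; ring
    rw [h1, Real.log_mul (by exact_mod_cast Nat.factorial_ne_zero _) (by positivity)]

theorem log27 : 95 / 100 ≤ Real.log (27 / 10) := by
  rw [Real.le_log_iff_exp_le (by norm_num)]
  have h1 : Real.exp (95 / 100) * Real.exp (5 / 100) = Real.exp 1 := by
    rw [← Real.exp_add]; norm_num
  have h2 := Real.exp_one_lt_d9
  have h3 := Real.add_one_le_exp (5 / 100 : ℝ)
  have h4 : 0 < Real.exp (95 / 100) := Real.exp_pos _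
  nlinarith

theorem two_pow_le_fac (j : ℕ) : 2 ^ j ≤ 2 * j ! := by
  induction j with
  | zero => simp
  | succ j ih =>
    rcases Nat.eq_zero_or_pos j with h | h
    · subst h; simp
    · rw [pow_succ, Nat.factorial_succ]
      calc 2 ^ j * 2 ≤ (2 * j !) * (j + 1) := Nat.mul_le_mul ih (by omega)
        _ = 2 * ((j + 1) * j !) := by ring

theorem freq (ε : ℝ) (hε0 : 0 < ε) (hε1 : ε ≤ 1 / 2) (r : ℕ) (hr : 1 ≤ r) (l : ℝ) (k0 : ℕ) (hk0 : 5 ≤ k0)
    (α : ℝ) (hα : 27 / 10 ≤ α) (S : ℕ → Finset ℕ)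
    (h1 : ∀ n, 9 / 20 * ε / r * Real.log ((k0 + n : ℕ) : ℝ) ≤ (S n).card)
    (h2 : ∀ n, ∀ m ∈ S n, 1 ≤ m ∧ Int.fract (α ^ m) < l ∧
        ((k0 + n)! : ℝ) / ((k0 + n : ℕ) : ℝ) ^ ε ≤ m * α ^ (m - 1) ∧
        m * α ^ (m - 1) ≤ ((k0 + n)! : ℝ)) :
    ∀ᶠ N : ℕ in atTop, ε / (4 * r) ≤
      (((Finset.Icc 1 N).filter (fun m => Int.fract (α ^ m) < l)).card : ℝ) / N := by
  classical
  obtain ⟨k', rfl⟩ : ∃ k', k0 = k' + 1 := ⟨k0 - 1, by omega⟩
  have hr0 : (0 : ℝ) < r := by exact_mod_cast hr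
  obtain ⟨N0, hN0⟩ := exists_nat_gt (100 * (2 + Real.log 4 + Real.log (k' ! : ℝ)))
  filter_upwards [eventually_ge_atTop (max N0 (k' + 1))] with N hN
  have hN0' : N0 ≤ N := (le_max_left _ _).trans hN
  have hNk : k' + 1 ≤ N := (le_max_right _ _).trans hN
  have hN1 : 1 ≤ N := by omega
  have hN1' : (1 : ℝ) ≤ N := by exact_mod_cast hN1
  have hNpos : (0 : ℝ) < N := by linarith
  have hNbig : 100 * (2 + Real.log 4 + Real.log (k' ! : ℝ)) ≤ N := by
    have : (N0 : ℝ) ≤ N := by exact_mod_cast hN0'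
    linarith
  obtain ⟨Z, hZ⟩ : ∃ Z : ℝ, Z = N * (27 / 10) ^ (N - 1) := ⟨_, rfl⟩
  have hex : ∃ n : ℕ, Z < ((k' + 1 + n)! : ℝ) := by
    obtain ⟨q, hq⟩ := exists_nat_gt Z
    refine ⟨q, hq.trans_le ?_⟩
    have : q ≤ (k' + 1 + q)! := (Nat.le_add_left q (k' + 1)).trans (Nat.self_le_factorial _)
    exact_mod_cast this
  set M := Nat.find hex with hM
  have hMspec : Z < ((k' + 1 + M)! : ℝ) := Nat.find_spec hex
  have hMmin : ∀ n < M, ((k' + 1 + n)! : ℝ) ≤ Z := fun n hn => by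
    have := Nat.find_min hex hn
    linarith [not_lt.mp this]
  -- bound for M
  have hMle : k' + 1 + M ≤ 2 * N + 2 := by
    rcases Nat.eq_zero_or_pos M with h | h
    · omega
    · have h3 := hMmin (M - 1) (by omega)
      have e : k' + 1 + (M - 1) = k' + M := by omega
      rw [e] at h3
      have h4 : Z ≤ 4 ^ N := by
        rw [hZ]
        have h5 := one_add_mul_le_pow (a := (48 / 100 : ℝ)) (by norm_num) (N - 1)
        have h6 : ((N - 1 : ℕ) : ℝ) = (N : ℝ) - 1 := by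
          rw [Nat.cast_sub hN1]; simp
        rw [h6] at h5
        have h7 : (4 : ℝ) ^ N = 4 ^ (N - 1) * 4 := by
          rw [← pow_succ, Nat.sub_add_cancel hN1]
        have h8 : (1 + 48 / 100 : ℝ) ^ (N - 1) * (27 / 10) ^ (N - 1) ≤ 4 ^ (N - 1) := by
          rw [← mul_pow]
          gcongr
          norm_num
        have h9 : (0 : ℝ) < (27 / 10) ^ (N - 1) := by positivity
        calc (N : ℝ) * (27 / 10) ^ (N - 1) ≤ (4 * (1 + 48 / 100 : ℝ) ^ (N - 1)) * (27 / 10) ^ (N - 1) := by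
              gcongr; linarith
          _ = 4 * ((1 + 48 / 100 : ℝ) ^ (N - 1) * (27 / 10) ^ (N - 1)) := by ring
          _ ≤ 4 * 4 ^ (N - 1) := by gcongr
          _ = 4 ^ N := by rw [h7]; ring
      have h5 : (2 : ℝ) ^ (k' + M) ≤ 2 ^ (2 * N + 1) := by
        calc (2 : ℝ) ^ (k' + M) ≤ 2 * ((k' + M)! : ℝ) := by exact_mod_cast two_pow_le_fac (k' + M)
          _ ≤ 2 * 4 ^ N := by gcongr; linarith
          _ = 2 ^ (2 * N + 1) := by rw [pow_succ, pow_mul]; norm_num; ring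
      have h6 := (pow_le_pow_iff_right₀ (by norm_num : (1 : ℝ) < 2)).mp h5
      omega
  -- the logarithms
  have hlogsum : 9 / 10 * (N : ℝ) ≤ ∑ n ∈ Finset.range M, Real.log ((k' + 1 + n : ℕ) : ℝ) := by
    have h3 := sum_log k' M
    have h4 : Real.log ((k' + 1 + M)! : ℝ) = Real.log ((k' + M)! : ℝ) + Real.log ((k' + 1 + M : ℕ) : ℝ) := by
      have e : ((k' + 1 + M)! : ℝ) = ((k' + M)! : ℝ) * ((k' + 1 + M : ℕ) : ℝ) := by
        rw [show k' + 1 + M = (k' + M) + 1 by ring, Nat.factorial_succ]; push_cast; ring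
      rw [e, Real.log_mul (by exact_mod_cast Nat.factorial_ne_zero _) (by positivity)]
    have h5 : Real.log Z ≤ Real.log ((k' + 1 + M)! : ℝ) := by
      apply Real.log_le_log _ hMspec.le
      rw [hZ]; positivity
    have h6 : Real.log Z = Real.log N + ((N : ℝ) - 1) * Real.log (27 / 10) := by
      rw [hZ, Real.log_mul (by positivity) (by positivity), Real.log_pow, Nat.cast_sub hN1]
      simp
    have h7 : Real.log ((k' + 1 + M : ℕ) : ℝ) ≤ Real.log N + Real.log 4 := by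
      rw [← Real.log_mul (by positivity) (by norm_num)]
      apply Real.log_le_log (by positivity)
      have : ((k' + 1 + M : ℕ) : ℝ) ≤ 2 * N + 2 := by exact_mod_cast hMle
      linarith
    have h8 := log27
    have h9 : ((N : ℝ) - 1) * (95 / 100) ≤ ((N : ℝ) - 1) * Real.log (27 / 10) := by
      have : (0 : ℝ) ≤ (N : ℝ) - 1 := by linarith
      gcongr
    linarith
  -- the union
  have hαpos : 0 < α := by linarith
  have hmono : ∀ m m' : ℕ, 1 ≤ m → m < m' → (m : ℝ) * α ^ (m - 1) < m' * α ^ (m' - 1) := by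
    intro m m' hm hlt
    have h3 : α ^ (m - 1) ≤ α ^ (m' - 1) := pow_le_pow_right₀ (by linarith) (by omega)
    have h4 : (m : ℝ) < m' := by exact_mod_cast hlt
    have h5 : 0 < α ^ (m - 1) := by positivity
    calc (m : ℝ) * α ^ (m - 1) < m' * α ^ (m - 1) := by gcongr
      _ ≤ m' * α ^ (m' - 1) := by gcongr
  have hsub : (Finset.range M).biUnion S ⊆ (Finset.Icc 1 N).filter (fun m => Int.fract (α ^ m) < l) := by
    intro m hm
    rw [Finset.mem_biUnion] at hm
    obtain ⟨n, hn, hmn⟩ := hm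
    rw [Finset.mem_range] at hn
    obtain ⟨g1, g2, g3, g4⟩ := h2 n m hmn
    rw [Finset.mem_filter, Finset.mem_Icc]
    refine ⟨⟨g1, ?_⟩, g2⟩
    by_contra hlt
    have h3 := hmono N m hN1 (by omega)
    have h4 := hMmin n hn
    have h5 : Z ≤ N * α ^ (N - 1) := by rw [hZ]; gcongr
    linarith
  have hdisj : Set.PairwiseDisjoint (↑(Finset.range M)) S := by
    have key : ∀ a b : ℕ, a < b → Disjoint (S a) (S b) := by
      intro a b hab
      rw [Finset.disjoint_left]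
      intro m hma hmb
      obtain ⟨-, -, -, g4⟩ := h2 a m hma
      obtain ⟨-, -, g3, -⟩ := h2 b m hmb
      have hb0 : (1 : ℝ) < ((k' + 1 + b : ℕ) : ℝ) := by exact_mod_cast (by omega : 1 < k' + 1 + b)
      have h3 : ((k' + 1 + b : ℕ) : ℝ) ^ ε < ((k' + 1 + b : ℕ) : ℝ) := by
        conv_rhs => rw [← Real.rpow_one ((k' + 1 + b : ℕ) : ℝ)]
        exact Real.rpow_lt_rpow_of_exponent_lt hb0 (by linarith)
      have h4 : ((k' + 1 + a)! : ℝ) ≤ ((k' + b)! : ℝ) := by
        exact_mod_cast Nat.factorial_le (by omega : k' + 1 + a ≤ k' + b)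
      have h5 : ((k' + 1 + b)! : ℝ) = ((k' + 1 + b : ℕ) : ℝ) * ((k' + b)! : ℝ) := by
        rw [show k' + 1 + b = (k' + b) + 1 by ring, Nat.factorial_succ]; push_cast; ring
      have h6 : (0 : ℝ) < ((k' + 1 + b : ℕ) : ℝ) ^ ε := by positivity
      have h7 : (0 : ℝ) < ((k' + b)! : ℝ) := by exact_mod_cast Nat.factorial_pos _
      rw [h5, div_le_iff₀ h6] at g3
      have h8 : (m : ℝ) * α ^ (m - 1) * ((k' + 1 + b : ℕ) : ℝ) ^ ε ≤
          ((k' + b)! : ℝ) * ((k' + 1 + b : ℕ) : ℝ) ^ ε := by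
        gcongr; linarith
      have h9 : ((k' + b)! : ℝ) * ((k' + 1 + b : ℕ) : ℝ) ^ ε < ((k' + b)! : ℝ) * ((k' + 1 + b : ℕ) : ℝ) := by
        gcongr
      linarith
    intro a _ b _ hab
    rcases Nat.lt_or_gt_of_ne hab with h | h
    · exact key a b h
    · exact (key b a h).symm
  have hcard : 9 / 20 * ε / r * (9 / 10 * N) ≤
      (((Finset.Icc 1 N).filter (fun m => Int.fract (α ^ m) < l)).card : ℝ) := by
    calc 9 / 20 * ε / r * (9 / 10 * N)
        ≤ 9 / 20 * ε / r * ∑ n ∈ Finset.range M, Real.log ((k' + 1 + n : ℕ) : ℝ) := by gcongr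
      _ = ∑ n ∈ Finset.range M, 9 / 20 * ε / r * Real.log ((k' + 1 + n : ℕ) : ℝ) := Finset.mul_sum _ _ _
      _ ≤ ∑ n ∈ Finset.range M, ((S n).card : ℝ) := Finset.sum_le_sum fun n _ => h1 n
      _ = (((Finset.range M).biUnion S).card : ℝ) := by
          rw [Finset.card_biUnion hdisj]; push_cast; rfl
      _ ≤ _ := by exact_mod_cast Finset.card_le_card hsub
  rw [le_div_iff₀ hNpos]
  refine le_trans ?_ hcard
  have h3 : ε / (4 * r) * N = (ε / r) * (1 / 4 * N) := by field_simp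
  have h4 : 9 / 20 * ε / r * (9 / 10 * N) = (ε / r) * (81 / 200 * N) := by ring
  rw [h3, h4]
  exact mul_le_mul_of_nonneg_left (by linarith) (by positivity)

end Pool.Agent.Helper32.FS
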