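import Pool.Agent.Helper32.FS.ExTree2
import Pool.Agent.Helper32.FS.Freq

/-!
# Factorial series whose powers visit a short arc too often

`factorial_tree`: for every `ε > 0` there is a tree (in the sense of `Helper46.TC.Tree`) all of whose points are
series `∑ c_k / k!` with integers `1 ≤ c_k ≤ k^ε`, within `ε` of `e`, whose powers visit an arc `[0, l)` with a
frequency `≥ q > l`.
-/

namespace Pool.Agent.Helper32.FS

open Filter Topology Set Pool.Agent.Helper46.TC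
open scoped Nat

/-- Choice of the arc. -/
theorem exists_r (ε : ℝ) (hε : 0 < ε) : ∃ r : ℕ, 1 ≤ r ∧ 16 * (r : ℝ) < ε * (27 / 10) ^ r := by
  have h1 : Tendsto (fun n : ℕ => (n : ℝ) ^ 1 / (27 / 10 : ℝ) ^ n) atTop (𝓝 0) :=
    tendsto_pow_const_div_const_pow_of_one_lt 1 (by norm_num)
  have h2 : (0 : ℝ) < ε / 16 := by positivity
  obtain ⟨r, hr1, hr2⟩ := ((h1.eventually_lt_const h2).and (eventually_ge_atTop 1)).exists
  refine ⟨r, hr2, ?_⟩
  rw [div_lt_iff₀ (by positivity), pow_one] at hr1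
  linarith

theorem factorial_tree' (ε : ℝ) (hε : 0 < ε) : ∃ T : Tree, (∀ z : Om, 0 ≤ T.lo 0 z) ∧ ∀ z : Om, ∃ c : ℕ → ℕ,
    (∀ k, 1 ≤ c k ∧ (c k : ℝ) ≤ max 1 ((k : ℝ) ^ ε)) ∧
    HasSum (fun k => (c k : ℝ) / (k.factorial : ℝ)) (T.pt z) ∧ |T.pt z - Real.exp 1| < ε ∧
    (∃ l q : ℝ, 0 < l ∧ l < q ∧ l < 1 ∧ ∀ᶠ N : ℕ in Filter.atTop,
      q ≤ (((Finset.Icc 1 N).filter (fun n => Int.fract (T.pt z ^ n) < l)).card : ℝ) / N) := by
  obtain ⟨ε', hε'0, hε'1, hε'2⟩ : ∃ ε' : ℝ, 0 < ε' ∧ ε' ≤ 1 / 2 ∧ ε' ≤ ε :=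
    ⟨min ε (1 / 2), lt_min hε (by norm_num), min_le_right _ _, min_le_left _ _⟩
  obtain ⟨r, hr1, hr2⟩ := exists_r ε' hε'0
  have hr0 : (0 : ℝ) < r := by exact_mod_cast hr1
  have hp : (0 : ℝ) < (27 / 10) ^ r := by positivity
  obtain ⟨l, hl⟩ : ∃ l : ℝ, l = 4 / (27 / 10) ^ r := ⟨_, rfl⟩
  have hl0 : 0 < l := by rw [hl]; positivity
  have hlq : l < ε' / (4 * r) := by
    rw [hl, div_lt_div_iff₀ hp (by positivity)]
    linarith
  have hq1 : ε' / (4 * r) ≤ 1 := by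
    rw [div_le_one (by positivity)]
    have : (1 : ℝ) ≤ r := by exact_mod_cast hr1
    linarith
  have hl1 : l < 1 := by linarith
  have hlr : 4 / l ≤ (27 / 10) ^ r := by
    rw [hl, div_div_eq_mul_div]
    apply le_of_eq
    field_simp
  obtain ⟨η, hη0, hη1, hη2⟩ : ∃ η : ℝ, 0 < η ∧ η ≤ 1 / 100 ∧ η ≤ ε :=
    ⟨min ε (1 / 100), lt_min hε (by norm_num), min_le_right _ _, min_le_left _ _⟩
  obtain ⟨T, k0, A, d, S, hk0, hA0, hA, hd, htend, hclose, hrange, hcard, hS, hpos⟩ :=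
    exists_tree ε' hε'0 hε'1 r hr1 l hl0 hl1 hlr η hη0 hη1
  refine ⟨T, hpos, fun z => ⟨fun k => if k < k0 then 1 else d (k - k0) z, ?_, ?_, (hclose z).trans_le hη2,
    l, ε' / (4 * r), hl0, hlq, hl1, ?_⟩⟩
  · intro k
    by_cases hk : k < k0
    · simp only [if_pos hk]
      exact ⟨le_rfl, by simp⟩
    · simp only [if_neg hk]
      obtain ⟨h1, h2⟩ := hd (k - k0) z
      refine ⟨h1, le_max_of_le_right (h2.trans ?_)⟩
      have e : k0 + (k - k0) = k := by omega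
      rw [e]
      have hk1 : (1 : ℝ) ≤ k := by exact_mod_cast (by omega : 1 ≤ k)
      exact Real.rpow_le_rpow_of_exponent_le hk1 hε'2
  · rw [hasSum_iff_tendsto_nat_of_nonneg (fun k => by positivity)]
    have hsum : ∀ n, ∑ k ∈ Finset.range (k0 + n),
        ((if k < k0 then 1 else d (k - k0) z : ℕ) : ℝ) / (k.factorial : ℝ) = A n z := by
      intro n
      induction n with
      | zero =>
        rw [Nat.add_zero, hA0]
        refine Finset.sum_congr rfl fun k hk => ?_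
        rw [Finset.mem_range] at hk
        rw [if_pos hk, Nat.cast_one]
      | succ n ih =>
        rw [← add_assoc, Finset.sum_range_succ, ih, hA]
        rw [if_neg (by omega), Nat.add_sub_cancel_left]
    have h1 : Tendsto (fun n => ∑ k ∈ Finset.range (n + k0),
        ((if k < k0 then 1 else d (k - k0) z : ℕ) : ℝ) / (k.factorial : ℝ)) atTop (𝓝 (T.pt z)) := by
      refine (htend z).congr fun n => ?_
      rw [add_comm n k0, hsum]
    exact (tendsto_add_atTop_iff_nat k0).mp h1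
  · exact freq ε' hε'0 hε'1 r hr1 l k0 hk0 (T.pt z) (hrange z).1 (fun n => S n z) (fun n => hcard n z)
      (fun n => hS n z)

theorem factorial_tree (ε : ℝ) (hε : 0 < ε) : ∃ T : Tree, ∀ z : Om, ∃ c : ℕ → ℕ,
    (∀ k, 1 ≤ c k ∧ (c k : ℝ) ≤ max 1 ((k : ℝ) ^ ε)) ∧
    HasSum (fun k => (c k : ℝ) / (k.factorial : ℝ)) (T.pt z) ∧ |T.pt z - Real.exp 1| < ε ∧
    (∃ l q : ℝ, 0 < l ∧ l < q ∧ l < 1 ∧ ∀ᶠ N : ℕ in Filter.atTop,
      q ≤ (((Finset.Icc 1 N).filter (fun n => Int.fract (T.pt z ^ n) < l)).card : ℝ) / N) := by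
  obtain ⟨T, -, h⟩ := factorial_tree' ε hε
  exact ⟨T, h⟩

end Pool.Agent.Helper32.FS
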