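import Mathlib

/-!
# Nested selection of digits

`sel`: points `y i + c * β i` with quickly increasing slopes `β i` can be steered into the arc
`[l/4, 3l/4]` modulo one, simultaneously for all `i < L`, by all real `c` of an interval of length
`(l/2)/β (L-1)`.
-/

namespace Pool.Agent.Helper32.FS

/-- One step: an interval of length at least `2/b` contains an interval of length `(l/2)/b` on which
`y + c b` is in `[l/4, 3l/4]` modulo one. -/
theorem step (l b y u v : ℝ) (hl0 : 0 < l) (hl1 : l < 1) (hb : 0 < b) (huv : 2 / b ≤ v - u) :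
    ∃ u' : ℝ, u ≤ u' ∧ u' + (l / 2) / b ≤ v ∧
      ∀ c : ℝ, u' ≤ c → c ≤ u' + (l / 2) / b →
        l / 4 ≤ Int.fract (y + c * b) ∧ Int.fract (y + c * b) ≤ 3 * l / 4 := by
  -- integer m with y + u b ≤ m + l/4
  set m : ℤ := ⌈y + u * b - l / 4⌉ with hm
  have h1 : y + u * b - l / 4 ≤ m := Int.le_ceil _
  have h2 : (m : ℝ) < y + u * b - l / 4 + 1 := Int.ceil_lt_add_one _
  refine ⟨(m + l / 4 - y) / b, ?_, ?_, ?_⟩
  · rw [le_div_iff₀ hb]
    linarith
  · rw [← add_div, div_le_iff₀ hb]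
    have h3 : 2 ≤ (v - u) * b := by
      rwa [div_le_iff₀ hb] at huv
    nlinarith
  · intro c hc1 hc2
    rw [div_le_iff₀ hb] at hc1
    rw [← add_div, le_div_iff₀ hb] at hc2
    have h4 : Int.fract (y + c * b) = y + c * b - m := by
      rw [Int.fract_eq_iff]
      refine ⟨by linarith, by linarith, m, by ring⟩
    rw [h4]
    constructor <;> linarith

/-- Nested selection. -/
theorem sel (l : ℝ) (hl0 : 0 < l) (hl1 : l < 1) (y β : ℕ → ℝ) (hβ : ∀ i, 0 < β i)
    (hr : ∀ i, 4 / l * β i ≤ β (i + 1)) (u v : ℝ) (h0 : 2 / β 0 ≤ v - u) (L : ℕ) :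
    ∃ u' : ℝ, u ≤ u' ∧ u' + (l / 2) / β L ≤ v ∧
      ∀ c : ℝ, u' ≤ c → c ≤ u' + (l / 2) / β L → ∀ i ≤ L,
        l / 4 ≤ Int.fract (y i + c * β i) ∧ Int.fract (y i + c * β i) ≤ 3 * l / 4 := by
  induction L with
  | zero =>
    obtain ⟨u', h1, h2, h3⟩ := step l (β 0) (y 0) u v hl0 hl1 (hβ 0) h0
    refine ⟨u', h1, h2, fun c hc1 hc2 i hi => ?_⟩
    obtain rfl : i = 0 := by omega
    exact h3 c hc1 hc2
  | succ L ih =>
    obtain ⟨u1, h1, h2, h3⟩ := ih
    have hb := hβ L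
    have hb' := hβ (L + 1)
    have hlen : 2 / β (L + 1) ≤ (u1 + (l / 2) / β L) - u1 := by
      rw [add_sub_cancel_left, div_le_div_iff₀ hb' hb]
      have := hr L
      rw [div_mul_eq_mul_div, div_le_iff₀ hl0] at this
      nlinarith
    obtain ⟨u2, h4, h5, h6⟩ := step l (β (L + 1)) (y (L + 1)) u1 _ hl0 hl1 hb' hlen
    refine ⟨u2, h1.trans h4, h5.trans h2, fun c hc1 hc2 i hi => ?_⟩
    rcases Nat.lt_or_ge L i with h | h
    · obtain rfl : i = L + 1 := by omega
      exact h6 c hc1 hc2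
    · exact h3 c (h4.trans hc1) (hc2.trans h5) i h

end Pool.Agent.Helper32.FS
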