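import Pool.Agent.Helper32.FS.Base
import Pool.Agent.Helper32.FS.Sel

/-!
# The selection of the digits at one place

`level`: at the place `k` there are `B ε k` consecutive digits `base, base + 1, …` (at most `k^ε`) and a set
`S` of at least `(9 ε)/(20 r) log k` exponents such that, whatever the later digits are, the powers
`α^n`, `n ∈ S`, lie in `[0, l)` modulo one.
-/

namespace Pool.Agent.Helper32.FS

open Filter Topology
open scoped Nat

/-- Nonlinear effects are small: for `n` with slope at most one. -/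
theorem pow_err (l A F x : ℝ) (n : ℕ) (X δ c : ℝ) (hl : 0 < l) (hA : 27 / 10 ≤ A) (hF : 0 < F)
    (hX : 1 ≤ X) (hn : 1 ≤ n) (hx0 : 0 ≤ x) (hx : x ≤ 2 * X / F) (hslope : n * A ^ (n - 1) / F ≤ 1)
    (hnX : 4 * n * X ^ 2 / F ≤ l / 16) (hnx : n * (2 * X / F) ≤ 1)
    (hc1 : c ≤ F * x) (hc2 : F * x ≤ c + δ) (hδ : δ ≤ l / 16) :
    A ^ n + c * (n * A ^ (n - 1) / F) ≤ (A + x) ^ n ∧
      (A + x) ^ n ≤ A ^ n + c * (n * A ^ (n - 1) / F) + l / 8 := by
  have hA0 : 0 < A := by linarith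
  have hn' : (1 : ℝ) ≤ n := by exact_mod_cast hn
  have hAn : A ^ n = A ^ (n - 1) * A := by
    rw [← pow_succ, Nat.sub_add_cancel hn]
  have hP : 0 < A ^ (n - 1) := by positivity
  have e1 : (A + x) ^ n = A ^ n * (1 + x / A) ^ n := by
    rw [← mul_pow]; congr 1; field_simp
  have hu0 : 0 ≤ x / A := by positivity
  have hu1 : (n : ℝ) * (x / A) ≤ 1 := by
    have : x / A ≤ x := div_le_self hx0 (by linarith)
    calc (n : ℝ) * (x / A) ≤ n * x := by gcongr
      _ ≤ n * (2 * X / F) := by gcongr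
      _ ≤ 1 := hnx
  have hlow := bern1 n (x / A) hu0
  have hup := bern2 n (x / A) hu0 hu1
  have hb0 : 0 ≤ n * A ^ (n - 1) / F := by positivity
  have e2 : A ^ n * (1 + n * (x / A)) = A ^ n + (n * A ^ (n - 1) / F) * (F * x) := by
    rw [hAn]; field_simp
  constructor
  · calc A ^ n + c * (n * A ^ (n - 1) / F) ≤ A ^ n + (F * x) * (n * A ^ (n - 1) / F) := by gcongr
      _ = A ^ n * (1 + n * (x / A)) := by rw [e2]; ring
      _ ≤ A ^ n * (1 + x / A) ^ n := by gcongr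
      _ = (A + x) ^ n := e1.symm
  · have e3 : A ^ n * (n * (x / A)) ^ 2 ≤ l / 16 := by
      have h1 : A ^ n * (n * (x / A)) ^ 2 = (n * A ^ (n - 1) / F) * (F * n * x ^ 2 / A) := by
        rw [hAn]; field_simp
      have h2 : F * n * x ^ 2 / A ≤ F * n * x ^ 2 := div_le_self (by positivity) (by linarith)
      have h3 : F * n * x ^ 2 ≤ F * n * (2 * X / F) ^ 2 := by gcongr
      have h4 : F * n * (2 * X / F) ^ 2 = 4 * n * X ^ 2 / F := by field_simp; ring
      have h5 : 0 ≤ F * n * x ^ 2 / A := by positivity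
      calc A ^ n * (n * (x / A)) ^ 2 = (n * A ^ (n - 1) / F) * (F * n * x ^ 2 / A) := h1
        _ ≤ 1 * (F * n * x ^ 2 / A) := by gcongr
        _ ≤ l / 16 := by linarith
    have e4 : (n * A ^ (n - 1) / F) * (F * x) ≤ c * (n * A ^ (n - 1) / F) + l / 16 := by
      calc (n * A ^ (n - 1) / F) * (F * x) ≤ (n * A ^ (n - 1) / F) * (c + δ) := by gcongr
        _ = c * (n * A ^ (n - 1) / F) + (n * A ^ (n - 1) / F) * δ := by ring
        _ ≤ c * (n * A ^ (n - 1) / F) + l / 16 := by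
            rcases le_or_gt 0 δ with h | h
            · have : (n * A ^ (n - 1) / F) * δ ≤ 1 * δ := by gcongr
              linarith
            · have : (n * A ^ (n - 1) / F) * δ ≤ 0 := mul_nonpos_of_nonneg_of_nonpos hb0 h.le
              linarith
    calc (A + x) ^ n = A ^ n * (1 + x / A) ^ n := e1
      _ ≤ A ^ n * (1 + n * (x / A) + (n * (x / A)) ^ 2) := by gcongr
      _ = A ^ n * (1 + n * (x / A)) + A ^ n * (n * (x / A)) ^ 2 := by ring
      _ ≤ (A ^ n + (n * A ^ (n - 1) / F) * (F * x)) + l / 16 := by rw [e2]; linarith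
      _ ≤ A ^ n + c * (n * A ^ (n - 1) / F) + l / 8 := by linarith

theorem fract_shift (l z w : ℝ) (hl0 : 0 < l) (hl1 : l < 1) (h1 : l / 4 ≤ Int.fract z)
    (h2 : Int.fract z ≤ 3 * l / 4) (h3 : z ≤ w) (h4 : w ≤ z + l / 8) : Int.fract w < l := by
  have h5 : Int.fract w = w - ⌊z⌋ := by
    rw [Int.fract_eq_iff]
    have h6 : Int.fract z = z - ⌊z⌋ := rfl
    exact ⟨by linarith, by linarith, ⌊z⌋, by ring⟩
  have h6 : Int.fract z = z - ⌊z⌋ := rfl
  rw [h5]
  linarith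

/-- The ratio of slopes. -/
theorem ratio_le (A : ℝ) (n r : ℕ) (hA0 : 27 / 10 ≤ A) (hA : A ≤ 28 / 10) (hn : 15 ≤ n) :
    ((n + r : ℕ) : ℝ) * A ^ (n + r - 1) ≤ 3 ^ r * (n * A ^ (n - 1)) := by
  have hn' : (15 : ℝ) ≤ n := by exact_mod_cast hn
  have e1 : A ^ (n + r - 1) = A ^ r * A ^ (n - 1) := by
    rw [← pow_add]; congr 1; omega
  have hA1 : 0 < A := by linarith
  have h1 : ((n + r : ℕ) : ℝ) ≤ n * (16 / 15) ^ r := by
    have h2 := one_add_mul_le_pow (a := (1 / 15 : ℝ)) (by norm_num) r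
    have h3 : (1 + 1 / 15 : ℝ) = 16 / 15 := by norm_num
    rw [h3] at h2
    push_cast
    have h4 : (n : ℝ) * (1 + r * (1 / 15)) ≤ n * (16 / 15) ^ r := by gcongr
    have h5 : (r : ℝ) ≤ n * (r * (1 / 15)) := by
      have : (0 : ℝ) ≤ r := Nat.cast_nonneg r
      nlinarith
    linarith
  calc ((n + r : ℕ) : ℝ) * A ^ (n + r - 1) ≤ (n * (16 / 15) ^ r) * (A ^ r * A ^ (n - 1)) := by
        rw [e1]; gcongr
    _ = (16 / 15 * A) ^ r * (n * A ^ (n - 1)) := by rw [mul_pow]; ring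
    _ ≤ 3 ^ r * (n * A ^ (n - 1)) := by
        have : 16 / 15 * A ≤ 3 := by linarith
        gcongr

theorem ratio_ge (A : ℝ) (n r : ℕ) (hA0 : 27 / 10 ≤ A) (hn : 1 ≤ n) :
    (27 / 10) ^ r * (n * A ^ (n - 1)) ≤ ((n + r : ℕ) : ℝ) * A ^ (n + r - 1) := by
  have e1 : A ^ (n + r - 1) = A ^ r * A ^ (n - 1) := by
    rw [← pow_add]; congr 1; omega
  have hA1 : 0 < A := by linarith
  rw [e1]
  calc (27 / 10) ^ r * (n * A ^ (n - 1)) ≤ A ^ r * (((n + r : ℕ) : ℝ) * A ^ (n - 1)) := by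
        gcongr
        omega
    _ = _ := by ring

/-- An exponent with small slope is small. -/
theorem exp_le (A : ℝ) (n k : ℕ) (hA0 : 27 / 10 ≤ A) (hn : 1 ≤ n)
    (h : n * A ^ (n - 1) ≤ (k ! : ℝ)) : n ≤ k ^ 2 + 1 := by
  have h1 : (2 : ℝ) ^ (n - 1) ≤ (2 : ℝ) ^ (k ^ 2) := by
    have hn' : (1 : ℝ) ≤ n := by exact_mod_cast hn
    calc (2 : ℝ) ^ (n - 1) ≤ A ^ (n - 1) := by gcongr; linarith
      _ ≤ n * A ^ (n - 1) := le_mul_of_one_le_left (by positivity) hn'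
      _ ≤ (k ! : ℝ) := h
      _ ≤ (k : ℝ) ^ k := by exact_mod_cast Nat.factorial_le_pow k
      _ ≤ ((2 : ℝ) ^ k) ^ k := by
          gcongr
          exact_mod_cast Nat.lt_two_pow_self.le
      _ = (2 : ℝ) ^ (k ^ 2) := by rw [← pow_mul, sq]
  have h2 := (pow_le_pow_iff_right₀ (by norm_num : (1 : ℝ) < 2)).mp h1
  omega

end Pool.Agent.Helper32.FS
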