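import Pool.Agent.Helper32.FS.Level

/-!
# The selection of the digits at one place: main statement
-/

namespace Pool.Agent.Helper32.FS

open Filter Topology
open scoped Nat

/-- The slope of `c ↦ (A + c/F)^n` at `0`. -/
noncomputable def sl (A F : ℝ) (n : ℕ) : ℝ := n * A ^ (n - 1) / F

/-- The first controlled exponent. -/
theorem first_exp (A F X : ℝ) (k : ℕ) (hA0 : 27 / 10 ≤ A) (hA1 : A ≤ 28 / 10) (hF : 0 < F) (hX : 4 ≤ X)
    (hXk : X ≤ k) (hk : 10 ^ 8 * (k : ℝ) ≤ F) :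
    ∃ n : ℕ, 15 ≤ n ∧ 2 ≤ sl A F n * (X - 1) ∧ sl A F n ≤ 12 / X := by
  classical
  have hA : 0 < A := by linarith
  have hX1 : 0 < X - 1 := by linarith
  have hex : ∃ n : ℕ, 1 ≤ n ∧ 2 ≤ sl A F n * (X - 1) := by
    obtain ⟨m, hm⟩ := exists_nat_gt (2 * F / (X - 1))
    refine ⟨m + 1, by omega, ?_⟩
    have h1 : (1 : ℝ) ≤ A ^ (m + 1 - 1) := one_le_pow₀ (by linarith)
    rw [div_lt_iff₀ hX1] at hm
    unfold sl
    rw [div_mul_eq_mul_div, le_div_iff₀ hF]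
    have h2 : ((m + 1 : ℕ) : ℝ) ≤ ((m + 1 : ℕ) : ℝ) * A ^ (m + 1 - 1) := by
      have : (0 : ℝ) ≤ ((m + 1 : ℕ) : ℝ) := Nat.cast_nonneg _
      nlinarith
    have h3 : (m : ℝ) ≤ ((m + 1 : ℕ) : ℝ) := by push_cast; linarith
    calc 2 * F ≤ m * (X - 1) := hm.le
      _ ≤ ((m + 1 : ℕ) : ℝ) * A ^ (m + 1 - 1) * (X - 1) := by
          have : (m : ℝ) ≤ ((m + 1 : ℕ) : ℝ) * A ^ (m + 1 - 1) := h3.trans h2
          gcongr
  have hsmall : ∀ n : ℕ, n ≤ 15 → sl A F n * (X - 1) < 2 := by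
    intro n hn
    unfold sl
    rw [div_mul_eq_mul_div, div_lt_iff₀ hF]
    have h1 : A ^ (n - 1) ≤ (28 / 10) ^ 14 := by
      calc A ^ (n - 1) ≤ (28 / 10) ^ (n - 1) := by gcongr
        _ ≤ (28 / 10) ^ 14 := pow_le_pow_right₀ (by norm_num) (by omega)
    have h2 : (n : ℝ) ≤ 15 := by exact_mod_cast hn
    have h3 : (n : ℝ) * A ^ (n - 1) ≤ 15 * (28 / 10) ^ 14 := by gcongr
    have h4 : (15 * (28 / 10) ^ 14 : ℝ) ≤ 10 ^ 8 := by norm_num
    calc (n : ℝ) * A ^ (n - 1) * (X - 1) ≤ 10 ^ 8 * k := by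
          apply mul_le_mul (h3.trans h4) (by linarith) hX1.le (by norm_num)
      _ ≤ F := hk
      _ < 2 * F := by linarith
  set n1 := Nat.find hex with hn1
  have hspec := Nat.find_spec hex
  rw [← hn1] at hspec
  have h16 : 16 ≤ n1 := by
    by_contra hlt
    have := hsmall n1 (by omega)
    linarith [hspec.2]
  have hmin : sl A F (n1 - 1) * (X - 1) < 2 := by
    have := Nat.find_min hex (m := n1 - 1) (by omega)
    by_contra h
    exact this ⟨by omega, by linarith⟩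
  refine ⟨n1, by omega, hspec.2, ?_⟩
  have h1 := ratio_le A (n1 - 1) 1 hA0 hA1 (by omega)
  have e1 : n1 - 1 + 1 = n1 := by omega
  rw [e1, pow_one] at h1
  have h2 : sl A F n1 ≤ 3 * sl A F (n1 - 1) := by
    unfold sl
    rw [← mul_div_assoc]
    gcongr
  have h3 : sl A F (n1 - 1) < 2 / (X - 1) := by
    rw [lt_div_iff₀ hX1]; exact hmin
  have h4 : 3 * (2 / (X - 1)) ≤ 12 / X := by
    rw [← mul_div_assoc, div_le_div_iff₀ hX1 (by linarith)]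
    nlinarith
  linarith

theorem level (ε : ℝ) (hε0 : 0 < ε) (hε1 : ε ≤ 1 / 2) (r : ℕ) (hr : 1 ≤ r) (l : ℝ) (hl0 : 0 < l)
    (hl1 : l < 1) (hlr : 4 / l ≤ (27 / 10) ^ r) :
    ∀ᶠ k : ℕ in atTop, ∀ A : ℝ, 27 / 10 ≤ A → A ≤ 28 / 10 → ∃ base : ℕ, ∃ S : Finset ℕ, 1 ≤ base ∧
      (base : ℝ) + B ε k ≤ (k : ℝ) ^ ε ∧ 9 / 20 * ε / r * Real.log k ≤ S.card ∧
      ∀ α : ℝ, A + base / (k ! : ℝ) ≤ α →
        α ≤ A + (base + B ε k - 1) / (k ! : ℝ) + 4 * ((k : ℝ) + 1) ^ (ε - 1) / (k ! : ℝ) → ∀ n ∈ S,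
        1 ≤ n ∧ Int.fract (α ^ n) < l ∧ (k ! : ℝ) / (k : ℝ) ^ ε ≤ n * α ^ (n - 1) ∧
          n * α ^ (n - 1) ≤ (k ! : ℝ) := by
  filter_upwards [eventually_ge_atTop 1, rpow_large ε 4 hε0, pow_div_fac (10 ^ 8) l hl0,
    rpow_large (3 / 4 * ε) (48 / l) (by positivity), log_large (4 * Real.log (48 / l) / ε),
    rpow_large (1 / 2) (64 / l) (by norm_num)] with k hk1 hX4 hF4 hXB hlog hδ
  intro A hA0 hA1
  have hk0 : (0 : ℝ) < k := by exact_mod_cast hk1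
  have hk1' : (1 : ℝ) ≤ k := by exact_mod_cast hk1
  have hA : 0 < A := by linarith
  obtain ⟨F, hFdef⟩ : ∃ F : ℝ, F = (k ! : ℝ) := ⟨_, rfl⟩
  have hF0 : 0 < F := by rw [hFdef]; exact_mod_cast Nat.factorial_pos k
  obtain ⟨X, hXdef⟩ : ∃ X : ℝ, X = (k : ℝ) ^ ε := ⟨_, rfl⟩
  rw [← hFdef] at hF4 ⊢
  rw [← hXdef] at hX4 ⊢
  have hX0 : 0 < X := by linarith
  have hXsq : X ^ 2 ≤ k := by
    rw [hXdef, ← Real.rpow_natCast, ← Real.rpow_mul hk0.le]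
    calc (k : ℝ) ^ (ε * ((2 : ℕ) : ℝ)) ≤ (k : ℝ) ^ (1 : ℝ) :=
          Real.rpow_le_rpow_of_exponent_le hk1' (by push_cast; linarith)
      _ = k := Real.rpow_one _
  have hXk : X ≤ k := (le_self_pow₀ (by linarith) (by norm_num)).trans hXsq
  have hk14 : (k : ℝ) ≤ (k : ℝ) ^ 4 := le_self_pow₀ hk1' (by norm_num)
  have hk34 : (k : ℝ) ^ 3 ≤ (k : ℝ) ^ 4 := pow_le_pow_right₀ hk1' (by norm_num)
  have hlF : l * F ≤ F := mul_le_of_le_one_left hF0.le hl1.le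
  have hkF : 10 ^ 8 * (k : ℝ) ≤ F := by
    have : (10 : ℝ) ^ 8 * k ≤ 10 ^ 8 * (k : ℝ) ^ 4 := by gcongr
    linarith
  obtain ⟨Bk, hBdef⟩ : ∃ b : ℝ, b = (B ε k : ℝ) := ⟨_, rfl⟩
  have hB1 : 1 ≤ Bk := by rw [hBdef]; exact_mod_cast B_pos ε hε0 k hk1
  have hB0 : 0 < Bk := by linarith
  have hBle : Bk ≤ (k : ℝ) ^ (ε / 4) := by rw [hBdef]; exact B_le ε k
  rw [← hBdef]
  -- the first exponent
  obtain ⟨n1, hn15, hn1a, hn1b⟩ := first_exp A F X k hA0 hA1 hF0 hX4 hXk hkF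
  obtain ⟨β, hβdef⟩ : ∃ β : ℕ → ℝ, β = fun i => sl A F (n1 + i * r) := ⟨_, rfl⟩
  have hβ : ∀ i, β i = sl A F (n1 + i * r) := fun i => by rw [hβdef]
  have hβ0 : ∀ i, 0 < β i := by
    intro i
    rw [hβ]
    unfold sl
    have : (0 : ℝ) < ((n1 + i * r : ℕ) : ℝ) := by exact_mod_cast (by omega : 0 < n1 + i * r)
    positivity
  have hidx : ∀ i, n1 + (i + 1) * r = (n1 + i * r) + r := fun i => by ring
  have hβr : ∀ i, 4 / l * β i ≤ β (i + 1) := by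
    intro i
    have h1 := ratio_ge A (n1 + i * r) r hA0 (by omega)
    have h2 : 4 / l * β i ≤ (27 / 10) ^ r * β i := mul_le_mul_of_nonneg_right hlr (hβ0 i).le
    refine h2.trans ?_
    rw [hβ, hβ, hidx]
    unfold sl
    rw [← mul_div_assoc]
    gcongr
  have hβu : ∀ i, β i ≤ 3 ^ (r * i) * (12 / X) := by
    intro i
    induction i with
    | zero => simpa [hβ] using hn1b
    | succ i ih =>
      have h1 := ratio_le A (n1 + i * r) r hA0 hA1 (by omega)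
      have h2 : β (i + 1) ≤ 3 ^ r * β i := by
        rw [hβ, hβ, hidx]
        unfold sl
        rw [← mul_div_assoc]
        gcongr
      calc β (i + 1) ≤ 3 ^ r * β i := h2
        _ ≤ 3 ^ r * (3 ^ (r * i) * (12 / X)) := by gcongr
        _ = 3 ^ (r * (i + 1)) * (12 / X) := by rw [mul_add, mul_one, pow_add]; ring
  -- the number of exponents
  have hr0 : (0 : ℝ) < r := by exact_mod_cast hr
  have hlog3 : 0 < Real.log 3 := Real.log_pos (by norm_num)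
  have hlog3' : Real.log 3 ≤ 11 / 10 := by
    rw [Real.log_le_iff_le_exp (by norm_num)]
    have h1 : Real.exp (11 / 10) = Real.exp 1 * Real.exp (1 / 10) := by
      rw [← Real.exp_add]; norm_num
    have h2 := Real.exp_one_gt_d9
    have h3 := Real.quadratic_le_exp_of_nonneg (show (0 : ℝ) ≤ 1 / 10 by norm_num)
    rw [h1]
    calc (3 : ℝ) ≤ 2.7182818283 * (1 + 1 / 10 + (1 / 10) ^ 2 / 2) := by norm_num
      _ ≤ _ := mul_le_mul h2.le h3 (by norm_num) (Real.exp_pos _).le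
  have hQ : 1 ≤ l * X / (48 * Bk) := by
    rw [le_div_iff₀ (by positivity), one_mul]
    have h1 : X = (k : ℝ) ^ (ε / 4) * (k : ℝ) ^ (3 / 4 * ε) := by
      rw [hXdef, ← Real.rpow_add hk0]; congr 1; ring
    have h2 : 48 * Bk ≤ 48 * (k : ℝ) ^ (ε / 4) := by gcongr
    have h3 : 48 ≤ l * (k : ℝ) ^ (3 / 4 * ε) := by
      rw [div_le_iff₀ hl0] at hXB; linarith
    calc 48 * Bk ≤ 48 * (k : ℝ) ^ (ε / 4) := h2
      _ ≤ (l * (k : ℝ) ^ (3 / 4 * ε)) * (k : ℝ) ^ (ε / 4) := by gcongr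
      _ = l * X := by rw [h1]; ring
  obtain ⟨Λ, hΛ⟩ : ∃ Λ : ℝ, Λ = Real.log (l * X / (48 * Bk)) / (r * Real.log 3) := ⟨_, rfl⟩
  have hΛ0 : 0 ≤ Λ := by rw [hΛ]; exact div_nonneg (Real.log_nonneg hQ) (by positivity)
  have hL : (3 : ℝ) ^ (r * ⌊Λ⌋₊) ≤ l * X / (48 * Bk) := by
    have h1 : ((3 : ℝ) ^ (r * ⌊Λ⌋₊)) = Real.exp (((r * ⌊Λ⌋₊ : ℕ) : ℝ) * Real.log 3) := by
      rw [Real.exp_nat_mul, Real.exp_log (by norm_num)]
    have h2 : ((r * ⌊Λ⌋₊ : ℕ) : ℝ) * Real.log 3 ≤ Real.log (l * X / (48 * Bk)) := by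
      have h3 : (⌊Λ⌋₊ : ℝ) ≤ Λ := Nat.floor_le hΛ0
      push_cast
      calc (r : ℝ) * ⌊Λ⌋₊ * Real.log 3 ≤ r * Λ * Real.log 3 := by gcongr
        _ = Real.log (l * X / (48 * Bk)) := by rw [hΛ]; field_simp
    rw [h1]
    calc Real.exp (((r * ⌊Λ⌋₊ : ℕ) : ℝ) * Real.log 3) ≤ Real.exp (Real.log (l * X / (48 * Bk))) :=
          Real.exp_le_exp.mpr h2
      _ = _ := Real.exp_log (by linarith)
  have hΛlow : 9 / 20 * ε / r * Real.log k ≤ Λ := by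
    have h1 : (k : ℝ) ^ (3 / 4 * ε) * (l / 48) ≤ l * X / (48 * Bk) := by
      rw [le_div_iff₀ (by positivity)]
      have h2 : X = (k : ℝ) ^ (ε / 4) * (k : ℝ) ^ (3 / 4 * ε) := by
        rw [hXdef, ← Real.rpow_add hk0]; congr 1; ring
      rw [h2]
      have h3 : (k : ℝ) ^ (3 / 4 * ε) * (l / 48) * (48 * Bk) = (k : ℝ) ^ (3 / 4 * ε) * l * Bk := by ring
      rw [h3]
      calc (k : ℝ) ^ (3 / 4 * ε) * l * Bk ≤ (k : ℝ) ^ (3 / 4 * ε) * l * (k : ℝ) ^ (ε / 4) := by gcongr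
        _ = _ := by ring
    have h4 : Real.log ((k : ℝ) ^ (3 / 4 * ε) * (l / 48)) = 3 / 4 * ε * Real.log k - Real.log (48 / l) := by
      rw [Real.log_mul (by positivity) (by positivity), Real.log_rpow hk0, Real.log_div (by positivity)
        (by norm_num), Real.log_div (by norm_num) (by positivity)]
      ring
    have h5 : 3 / 4 * ε * Real.log k - Real.log (48 / l) ≤ Real.log (l * X / (48 * Bk)) := by
      rw [← h4]
      exact Real.log_le_log (by positivity) h1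
    have h6 : Real.log (48 / l) ≤ ε * Real.log k / 4 := by
      rw [div_le_iff₀ hε0] at hlog
      linarith
    have h7 : ε * Real.log k / 2 ≤ Real.log (l * X / (48 * Bk)) := by linarith
    rw [hΛ, le_div_iff₀ (by positivity)]
    have h8 : 0 ≤ Real.log k := Real.log_nonneg hk1'
    calc 9 / 20 * ε / r * Real.log k * (r * Real.log 3) = 9 / 20 * (ε * Real.log k) * Real.log 3 := by
          field_simp
      _ ≤ 9 / 20 * (ε * Real.log k) * (11 / 10) := by gcongr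
      _ ≤ ε * Real.log k / 2 := by linarith [mul_nonneg hε0.le h8]
      _ ≤ _ := h7
  have hβL : β ⌊Λ⌋₊ ≤ l / (4 * Bk) := by
    calc β ⌊Λ⌋₊ ≤ 3 ^ (r * ⌊Λ⌋₊) * (12 / X) := hβu _
      _ ≤ l * X / (48 * Bk) * (12 / X) := by gcongr
      _ = l / (4 * Bk) := by field_simp; ring
  have hm : Monotone β := monotone_nat_of_le_succ fun i => by
    have h2 : 1 ≤ 4 / l := by rw [le_div_iff₀ hl0]; linarith
    exact (le_mul_of_one_le_left (hβ0 i).le h2).trans (hβr i)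
  have hβmono : ∀ i, i ≤ ⌊Λ⌋₊ → β i ≤ β ⌊Λ⌋₊ := fun i hi => hm hi
  -- selection
  have h0 : 2 / β 0 ≤ X - 1 := by
    rw [div_le_iff₀ (hβ0 0)]
    have : β 0 = sl A F n1 := by rw [hβ]; simp
    rw [this]
    linarith
  obtain ⟨u, hu1, hu2, hu3⟩ := sel l hl0 hl1 (fun i => A ^ (n1 + i * r)) β hβ0 hβr 1 X h0 ⌊Λ⌋₊
  have hlen : Bk + 1 ≤ (l / 2) / β ⌊Λ⌋₊ := by
    rw [le_div_iff₀ (hβ0 _)]
    calc (Bk + 1) * β ⌊Λ⌋₊ ≤ (2 * Bk) * (l / (4 * Bk)) := by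
          apply mul_le_mul (by linarith) hβL (hβ0 _).le (by linarith)
      _ = l / 2 := by field_simp; ring
  have hb1 : u ≤ (⌈u⌉₊ : ℝ) := Nat.le_ceil u
  have hb2 : (⌈u⌉₊ : ℝ) < u + 1 := Nat.ceil_lt_add_one (by linarith)
  refine ⟨⌈u⌉₊, (Finset.range (⌊Λ⌋₊ + 1)).image (fun i => n1 + i * r), ?_, by linarith, ?_, ?_⟩
  · exact Nat.one_le_ceil_iff.mpr (by linarith)
  · rw [Finset.card_image_of_injective, Finset.card_range]
    · push_cast
      linarith [Nat.lt_floor_add_one Λ]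
    · intro i j hij
      have : i * r = j * r := by simpa using hij
      exact Nat.eq_of_mul_eq_mul_right hr this
  intro α hα1 hα2 n hn
  simp only [Finset.mem_image, Finset.mem_range] at hn
  obtain ⟨i, hi, rfl⟩ := hn
  have hsl1 : β i ≤ l / 4 := by
    refine (hβmono i (by omega)).trans (hβL.trans ?_)
    rw [div_le_div_iff_of_pos_left hl0 (by positivity) (by norm_num)]
    linarith
  have hnpos : 1 ≤ n1 + i * r := by omega
  have hsl : ((n1 + i * r : ℕ) : ℝ) * A ^ (n1 + i * r - 1) / F ≤ 1 := by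
    have : β i = ((n1 + i * r : ℕ) : ℝ) * A ^ (n1 + i * r - 1) / F := hβ i
    linarith
  have hnk : n1 + i * r ≤ k ^ 2 + 1 := by
    apply exp_le A _ k hA0 hnpos
    rw [div_le_one hF0, hFdef] at hsl
    exact hsl
  have hnk' : ((n1 + i * r : ℕ) : ℝ) ≤ 2 * (k : ℝ) ^ 2 := by
    have h1 : ((n1 + i * r : ℕ) : ℝ) ≤ (k : ℝ) ^ 2 + 1 := by exact_mod_cast hnk
    have h2 : 1 ≤ (k : ℝ) ^ 2 := one_le_pow₀ hk1'
    linarith
  have hδ' : 4 * ((k : ℝ) + 1) ^ (ε - 1) ≤ l / 16 := by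
    have h1 : ((k : ℝ) + 1) ^ (ε - 1) ≤ (k : ℝ) ^ (-(1 / 2) : ℝ) := by
      calc ((k : ℝ) + 1) ^ (ε - 1) ≤ (k : ℝ) ^ (ε - 1) :=
            Real.rpow_le_rpow_of_nonpos hk0 (by linarith) (by linarith)
        _ ≤ (k : ℝ) ^ (-(1 / 2) : ℝ) := Real.rpow_le_rpow_of_exponent_le hk1' (by linarith)
    have h2 : (k : ℝ) ^ (-(1 / 2) : ℝ) ≤ l / 64 := by
      rw [Real.rpow_neg hk0.le, inv_le_comm₀ (by positivity) (by positivity)]
      have : (l / 64)⁻¹ = 64 / l := by rw [inv_div]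
      rw [this]
      exact hδ
    linarith
  obtain ⟨δ, hδdef⟩ : ∃ δ : ℝ, δ = 4 * ((k : ℝ) + 1) ^ (ε - 1) := ⟨_, rfl⟩
  rw [← hδdef] at hα2 hδ'
  have hδ0 : 0 ≤ δ := by rw [hδdef]; positivity
  obtain ⟨x, hx⟩ : ∃ x : ℝ, x = α - A := ⟨_, rfl⟩
  have hαx : α = A + x := by rw [hx]; ring
  have hFx1 : (⌈u⌉₊ : ℝ) ≤ F * x := by
    have : (⌈u⌉₊ : ℝ) / F ≤ x := by rw [hx]; linarith
    rw [div_le_iff₀ hF0] at this
    linarith
  have hFx2 : F * x ≤ ⌈u⌉₊ + Bk - 1 + δ := by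
    have : x ≤ (⌈u⌉₊ + Bk - 1) / F + δ / F := by rw [hx]; linarith
    rw [← add_div, le_div_iff₀ hF0] at this
    linarith
  obtain ⟨c, hc⟩ : ∃ c : ℝ, c = min (F * x) (⌈u⌉₊ + Bk - 1) := ⟨_, rfl⟩
  have hc1 : c ≤ F * x := by rw [hc]; exact min_le_left _ _
  have hc2 : F * x ≤ c + δ := by
    rw [hc]
    rcases le_total (F * x) (⌈u⌉₊ + Bk - 1) with h | h
    · rw [min_eq_left h]; linarith
    · rw [min_eq_right h]; linarith
  have hc3 : u ≤ c := by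
    rw [hc]
    exact le_min (by linarith) (by linarith)
  have hc4 : c ≤ u + (l / 2) / β ⌊Λ⌋₊ := by
    have : c ≤ ⌈u⌉₊ + Bk - 1 := by rw [hc]; exact min_le_right _ _
    linarith
  have hx0 : 0 ≤ x := by
    have h1 : 0 ≤ F * x := by linarith
    exact nonneg_of_mul_nonneg_right (by linarith : 0 ≤ F * x) hF0
  have hxX : x ≤ 2 * X / F := by
    rw [le_div_iff₀ hF0]
    have : (⌈u⌉₊ : ℝ) + Bk ≤ X := by linarith
    linarith
  have hk3F : 10 ^ 8 * (k : ℝ) ^ 3 ≤ l * F := by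
    have : (10 : ℝ) ^ 8 * (k : ℝ) ^ 3 ≤ 10 ^ 8 * (k : ℝ) ^ 4 := by gcongr
    linarith
  have hn0 : (0 : ℝ) ≤ ((n1 + i * r : ℕ) : ℝ) := Nat.cast_nonneg _
  have hnX : 4 * ((n1 + i * r : ℕ) : ℝ) * X ^ 2 / F ≤ l / 16 := by
    rw [div_le_iff₀ hF0]
    have h1 : 4 * ((n1 + i * r : ℕ) : ℝ) * X ^ 2 ≤ 4 * (2 * (k : ℝ) ^ 2) * k := by gcongr
    have h2 : 4 * (2 * (k : ℝ) ^ 2) * k = 8 * (k : ℝ) ^ 3 := by ring
    have h3 : (0 : ℝ) ≤ (k : ℝ) ^ 3 := by positivity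
    linarith
  have hnx : ((n1 + i * r : ℕ) : ℝ) * (2 * X / F) ≤ 1 := by
    rw [← mul_div_assoc, div_le_one hF0]
    have h1 : ((n1 + i * r : ℕ) : ℝ) * (2 * X) ≤ (2 * (k : ℝ) ^ 2) * (2 * k) := by gcongr
    have h2 : (2 * (k : ℝ) ^ 2) * (2 * k) = 4 * (k : ℝ) ^ 3 := by ring
    have h3 : (0 : ℝ) ≤ (k : ℝ) ^ 3 := by positivity
    linarith
  have hpe := pow_err l A F x (n1 + i * r) X δ c hl0 hA0 hF0 (by linarith) hnpos hx0 hxX hsl hnX hnx
    hc1 hc2 hδ'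
  have hsel := hu3 c hc3 hc4 i (by omega)
  have e1 : ((n1 + i * r : ℕ) : ℝ) * A ^ (n1 + i * r - 1) / F = β i := (hβ i).symm
  rw [e1] at hpe
  refine ⟨hnpos, ?_, ?_, ?_⟩
  · rw [hαx]
    exact fract_shift l _ _ hl0 hl1 hsel.1 hsel.2 hpe.1 hpe.2
  · -- lower bound
    have h1 : 2 ≤ β i * (X - 1) := by
      have h2 : β 0 ≤ β i := hm (Nat.zero_le i)
      have h3 : β 0 = sl A F n1 := by rw [hβ]; simp
      have h4 : (0 : ℝ) ≤ X - 1 := by linarith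
      calc (2 : ℝ) ≤ sl A F n1 * (X - 1) := hn1a
        _ = β 0 * (X - 1) := by rw [h3]
        _ ≤ β i * (X - 1) := by gcongr
    have h5 : F / X ≤ β i * F := by
      rw [div_le_iff₀ hX0]
      have h6 : 1 ≤ β i * X := by
        have := hβ0 i
        rw [mul_sub, mul_one] at h1
        linarith
      calc F = 1 * F := (one_mul F).symm
        _ ≤ (β i * X) * F := by gcongr
        _ = β i * F * X := by ring
    have h7 : β i * F = ((n1 + i * r : ℕ) : ℝ) * A ^ (n1 + i * r - 1) := by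
      rw [← e1]; field_simp
    rw [h7] at h5
    refine h5.trans ?_
    rw [hαx]
    gcongr
    linarith
  · -- upper bound
    have h7 : β i * F = ((n1 + i * r : ℕ) : ℝ) * A ^ (n1 + i * r - 1) := by
      rw [← e1]; field_simp
    have h8 : α ^ (n1 + i * r - 1) ≤ A ^ (n1 + i * r - 1) * 3 := by
      have h9 : α = A * (1 + x / A) := by rw [hαx]; field_simp
      rw [h9, mul_pow]
      have h10 : (1 + x / A) ^ (n1 + i * r - 1) ≤ 3 := by
        have h11 : ((n1 + i * r - 1 : ℕ) : ℝ) * (x / A) ≤ 1 := by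
          have h12 : ((n1 + i * r - 1 : ℕ) : ℝ) ≤ ((n1 + i * r : ℕ) : ℝ) := by
            exact_mod_cast Nat.sub_le _ _
          have h13 : x / A ≤ x := div_le_self hx0 (by linarith)
          calc ((n1 + i * r - 1 : ℕ) : ℝ) * (x / A) ≤ ((n1 + i * r : ℕ) : ℝ) * (2 * X / F) := by
                apply mul_le_mul h12 (h13.trans hxX) (by positivity) hn0
            _ ≤ 1 := hnx
        have h14 := bern2 (n1 + i * r - 1) (x / A) (by positivity) h11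
        have h15 : 0 ≤ ((n1 + i * r - 1 : ℕ) : ℝ) * (x / A) := by positivity
        have h16 : (((n1 + i * r - 1 : ℕ) : ℝ) * (x / A)) ^ 2 ≤ 1 := pow_le_one₀ h15 h11
        linarith
      gcongr
    calc ((n1 + i * r : ℕ) : ℝ) * α ^ (n1 + i * r - 1)
        ≤ ((n1 + i * r : ℕ) : ℝ) * (A ^ (n1 + i * r - 1) * 3) := by gcongr
      _ = 3 * (β i * F) := by rw [h7]; ring
      _ ≤ 3 * (l / 4 * F) := by gcongr
      _ ≤ F := by linarith

end Pool.Agent.Helper32.FS
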